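import Pool.Agent.Helper98.RS.Defs

/-!
# LS: definitions for the last step of RS
residually nilpotent + growth `≤ exp (n ^ α)`, `α < 1/4`, implies soluble.
-/

set_option autoImplicit false

open scoped Pointwise

namespace Pool.Agent.Helper75.LS

open Pool.Agent.Helper98.RS

variable {Γ : Type} [Group Γ]

/-- Subgroup generated by the `n`-th powers of the elements of `A`. -/
def Pw (n : ℕ) (A : Subgroup Γ) : Subgroup Γ := Subgroup.closure {x | ∃ a ∈ A, x = a ^ n}

/-- `A ^ p [A, A]`. -/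
def Ph (p : ℕ) (A : Subgroup Γ) : Subgroup Γ := Pw p A ⊔ ⁅A, A⁆

/-- `4` for `p = 2`, `p` otherwise. -/
def qq (p : ℕ) : ℕ := if p = 2 then 4 else p

/-- `A` is powerfully embedded in the whole group. -/
def PE (p : ℕ) (A : Subgroup Γ) : Prop := A.Normal ∧ ⁅A, (⊤ : Subgroup Γ)⁆ ≤ Pw (qq p) A

/-- A length filtration. -/
structure Filt (B : ℕ → Set Γ) : Prop where
  one : (1 : Γ) ∈ B 0
  mono : ∀ m n, m ≤ n → B m ⊆ B n
  mul : ∀ m n x y, x ∈ B m → y ∈ B n → x * y ∈ B (m + n)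
  inv : ∀ n x, x ∈ B n → x⁻¹ ∈ B n
  fin : ∀ n, (B n).Finite

/-- `A` is generated by elements of length at most `l`. -/
def Sh (B : ℕ → Set Γ) (A : Subgroup Γ) (l : ℕ) : Prop :=
  A ≤ Subgroup.closure ((A : Set Γ) ∩ B l)

/-- `W` centralises all normal sections of exponent `p`, abelian, of order at most `p ^ r`. -/
def Good (p : ℕ) (W : Subgroup Γ) (r : ℕ) : Prop :=
  ∀ M N : Subgroup Γ, M.Normal → N.Normal → M ≤ N → Ph p N ≤ M → M.relIndex N ≤ p ^ r →
    ⁅N, W⁆ ≤ M

/-- Lower central series, `Lc G 0 = G`. -/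
def Lc (G : Type) [Group G] (n : ℕ) : Subgroup G := (⊤ : Subgroup G).lowerCentralSeries n

/-- `G` has a nilpotent subgroup of finite index. -/
def VN (G : Type) [Group G] : Prop := ∃ H : Subgroup G, H.FiniteIndex ∧ Group.IsNilpotent H

end Pool.Agent.Helper75.LS
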