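import Pool.Agent.Helper75.LS.Defs
import Pool.Agent.Helper41.LS.Transfer

set_option autoImplicit false

open scoped Pointwise

namespace Pool.Agent.Helper75.LS

open Pool.Agent.Helper98.RS

/-- Growth bounds pass to subgroups of finite index. -/
theorem gb_subgroup {G : Type} [Group G] (S : Set G) (hSf : S.Finite)
    (hS : Subgroup.closure S = ⊤) (α β : ℝ) (hαβ : α < β) (hβ : 0 < β) (h : GB S α)
    (H : Subgroup G) (hH : H.FiniteIndex) :
    ∃ T : Set H, T.Finite ∧ Subgroup.closure T = ⊤ ∧ GB T β :=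
  have _ := hβ
  Pool.Agent.Helper41.LS.gb_subgroup S hSf hS α β hαβ h H hH

theorem vn_of_subgroup {G : Type} [Group G] (H : Subgroup G) (hH : H.FiniteIndex) (h : VN H) :
    VN G := by
  obtain ⟨K, hK, hKn⟩ := h
  refine ⟨K.map H.subtype, ⟨?_⟩, ?_⟩
  · rw [Subgroup.index_map_subtype]
    exact Nat.mul_ne_zero hK.index_ne_zero hH.index_ne_zero
  · exact Group.nilpotent_of_mulEquiv (K.equivMapOfInjective H.subtype H.subtype_injective)

end Pool.Agent.Helper75.LS
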