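import Pool.Agent.Helper75.LS.L20
import Pool.Agent.Helper75.LS.L21
import Pool.Agent.Helper98.RS.Final

set_option autoImplicit false

open scoped Pointwise

namespace Pool.Agent.Helper75.LS

open Pool.Agent.Helper98.RS

private theorem fin_rpow' (C α β : ℝ) (hC : 0 < C) (hβ : 0 < β) (hαβ : α < β) :
    ∃ n0 : ℕ, ∀ n : ℕ, n0 ≤ n → C * Real.exp ((C * n) ^ α) ≤ Real.exp ((n : ℝ) ^ β) := by
  set γ : ℝ := max α (β / 2) with hγ
  have hγβ : γ < β := max_lt hαβ (by linarith)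
  have hγ0 : 0 < γ := lt_of_lt_of_le (by linarith) (le_max_right _ _)
  have h1 : Filter.Tendsto (fun x : ℝ => C ^ γ * x ^ (-(β - γ)) + Real.log C * x ^ (-β))
      Filter.atTop (nhds (C ^ γ * 0 + Real.log C * 0)) :=
    ((tendsto_rpow_neg_atTop (by linarith)).const_mul _).add
      ((tendsto_rpow_neg_atTop hβ).const_mul _)
  have h2 := h1.eventually (gt_mem_nhds (show C ^ γ * 0 + Real.log C * 0 < (1 : ℝ) by simp))
  rw [Filter.eventually_atTop] at h2
  obtain ⟨x0, hx0⟩ := h2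
  refine ⟨max ⌈x0⌉₊ (max 1 ⌈1 / C⌉₊), fun n hn => ?_⟩
  have hn1 : x0 ≤ n := (Nat.le_ceil x0).trans (by exact_mod_cast (le_max_left _ _).trans hn)
  have hn2 : (1 : ℕ) ≤ n := (le_max_left _ _).trans ((le_max_right _ _).trans hn)
  have hn3 : 1 / C ≤ n := (Nat.le_ceil _).trans
    (by exact_mod_cast (le_max_right _ _).trans ((le_max_right _ _).trans hn))
  have hn0 : (0 : ℝ) < n := by exact_mod_cast hn2
  have hCn : 1 ≤ C * n := by
    rw [div_le_iff₀ hC] at hn3
    linarith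
  have h3 : (C * n) ^ α ≤ C ^ γ * (n : ℝ) ^ γ := by
    rw [← Real.mul_rpow hC.le hn0.le]
    exact Real.rpow_le_rpow_of_exponent_le hCn (le_max_left _ _)
  have h4 := hx0 n hn1
  have h5 : C ^ γ * (n : ℝ) ^ γ + Real.log C ≤ (n : ℝ) ^ β := by
    have hp : 0 < (n : ℝ) ^ β := Real.rpow_pos_of_pos hn0 β
    have h6 := mul_le_mul_of_nonneg_right h4.le hp.le
    rw [one_mul, add_mul, mul_assoc, mul_assoc, ← Real.rpow_add hn0, ← Real.rpow_add hn0] at h6
    have e1 : -(β - γ) + β = γ := by ring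
    have e2 : -β + β = 0 := by ring
    rw [e1, e2, Real.rpow_zero, mul_one] at h6
    exact h6
  calc C * Real.exp ((C * n) ^ α) = Real.exp (Real.log C + (C * n) ^ α) := by
        rw [Real.exp_add, Real.exp_log hC]
    _ ≤ Real.exp ((n : ℝ) ^ β) := Real.exp_le_exp.2 (by linarith)

private theorem log_quot : Real.log 3 / Real.log 96 < 1 / 4 := by
  have h96 : 0 < Real.log 96 := Real.log_pos (by norm_num)
  rw [div_lt_div_iff₀ h96 (by norm_num), one_mul]
  have h1 : Real.log 3 * 4 = Real.log (3 ^ 4) := by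
    rw [Real.log_pow]
    push_cast
    ring
  rw [h1]
  exact Real.log_lt_log (by norm_num) (by norm_num)

/-- Residually soluble groups of growth at most `exp (n ^ α)`, `α < log 3 / log 96`, are virtually
nilpotent. -/
theorem final_vn (G : Type) [Group G] (S : Set G) (hSf : S.Finite) (hS : Subgroup.closure S = ⊤)
    (hres : ∀ g : G, g ≠ 1 → ∃ (N : Subgroup G) (_ : N.Normal), g ∉ N ∧ Group.IsSolvable (G ⧸ N))
    (α : ℝ) (hα : α < Real.log 3 / Real.log 96)
    (hgr : ∃ C : ℝ, 0 < C ∧ ∀ n : ℕ, (Nat.card ↥((({1} : Set G) ∪ S ∪ S⁻¹) ^ n) : ℝ) ≤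
      C * Real.exp ((C * n) ^ α)) : VN G := by
  obtain ⟨H, hH, hresH⟩ := final G S hSf hS hres α hα hgr
  obtain ⟨C, hC, hgr⟩ := hgr
  have hα4 : max α 0 < 1 / 4 := max_lt (hα.trans log_quot) (by norm_num)
  obtain ⟨β', hβ'1, hβ'2⟩ := _root_.exists_between hα4
  obtain ⟨β, hβ1, hβ2⟩ := _root_.exists_between hβ'1
  have hβ0 : 0 < β := (le_max_right _ _).trans_lt hβ1
  have hαβ : α < β := (le_max_left _ _).trans_lt hβ1
  have hG : GB S β := by
    obtain ⟨n0, hn0⟩ := fin_rpow' C α β hC hβ0 hαβ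
    exact ⟨n0, fun n hn => (hgr n).trans (hn0 n hn)⟩
  obtain ⟨T, hTf, hT, hGT⟩ := gb_subgroup S hSf hS β β' hβ2 (hβ0.trans hβ2) hG H hH
  exact vn_of_subgroup H hH (last T hTf hT β' hβ'2 hGT hresH)

end Pool.Agent.Helper75.LS
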