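import Pool.Agent.Helper75.LS.Defs

set_option autoImplicit false

open scoped commutatorElement

namespace Pool.Agent.Helper75.LS

variable {Γ : Type} [Group Γ] [Finite Γ] {p : ℕ} [Fact p.Prime]

omit [Finite Γ] in
theorem l1_comm_sup (Y L : Subgroup Γ) (hY : Y.Normal) :
    ⁅Y ⊔ L, (⊤ : Subgroup Γ)⁆ ≤ Y ⊔ ⁅L, (⊤ : Subgroup Γ)⁆ := by
  rw [Subgroup.commutator_le]
  intro x hx g _
  obtain ⟨y, hy, l, hl, rfl⟩ := Subgroup.mem_sup_of_normal_left.1 hx
  have e : ⁅y * l, g⁆ = y * ⁅l, g⁆ * (g * y⁻¹ * g⁻¹) := by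
    simp only [commutatorElement_def]
    group
  rw [e]
  refine mul_mem (mul_mem (Subgroup.mem_sup_left hy) (Subgroup.mem_sup_right ?_))
    (Subgroup.mem_sup_left (hY.conj_mem _ (inv_mem hy) g))
  exact Subgroup.commutator_mem_commutator hl (Subgroup.mem_top g)

/-- In a finite `p`-group: `X ≤ Y [X, Γ]` implies `X ≤ Y`. -/
theorem le_of_le_sup_comm (hΓ : IsPGroup p Γ) (X Y : Subgroup Γ) (hX : X.Normal) (hY : Y.Normal)
    (h : X ≤ Y ⊔ ⁅X, (⊤ : Subgroup Γ)⁆) : X ≤ Y := by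
  have hn : Group.IsNilpotent Γ := hΓ.isNilpotent
  obtain ⟨n, hn⟩ := Subgroup.nilpotent_iff_lowerCentralSeries.1 hn
  have key : ∀ k : ℕ, X ≤ Y ⊔ (⊤ : Subgroup Γ).lowerCentralSeries k := by
    intro k
    induction k with
    | zero => exact le_sup_of_le_right le_top
    | succ k ih =>
      refine h.trans (sup_le le_sup_left ?_)
      exact (Subgroup.commutator_mono ih le_rfl).trans (l1_comm_sup Y _ hY)
  have := key n
  rwa [hn, sup_bot_eq] at this

omit [Finite Γ] in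
/-- A proper subgroup of a finite `p`-group lies in a normal one of index `p`. -/
theorem l1_max {A : Type} [Group A] [Finite A] (hA : IsPGroup p A) (Y : Subgroup A) (hY : Y ≠ ⊤) :
    ∃ K : Subgroup A, Y ≤ K ∧ K.Normal ∧ K.index = p := by
  have hp : p.Prime := Fact.out
  obtain ⟨a, ha⟩ := hA.exists_card_eq
  obtain ⟨k, hk⟩ := (hA.to_subgroup Y).exists_card_eq
  have hlt : k < a := by
    have h1 : Nat.card Y < Nat.card A := by
      refine lt_of_le_of_ne (Subgroup.card_le_card_group Y) fun e => hY (Subgroup.eq_top_of_card_eq Y e)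
    rw [ha, hk] at h1
    exact (Nat.pow_lt_pow_iff_right hp.one_lt).1 h1
  obtain ⟨K, hK, hYK⟩ := Sylow.exists_subgroup_card_pow_prime_le p (G := A) (m := a - 1) (n := k)
    (by rw [ha]; exact pow_dvd_pow p (by omega)) Y hk (by omega)
  have hi : K.index = p := by
    have h1 := K.card_mul_index
    rw [hK, ha] at h1
    have h2 : p ^ a = p ^ (a - 1) * p := by
      rw [← pow_succ]
      congr 1
      omega
    rw [h2] at h1
    exact Nat.eq_of_mul_eq_mul_left (pow_pos hp.pos _) h1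
  refine ⟨K, hYK, ?_, hi⟩
  refine Subgroup.normal_of_index_eq_minFac_card ?_
  rw [hi, ha, hp.pow_minFac (by omega)]

omit [Finite Γ] in
theorem l1_ph {A : Type} [Group A] (K : Subgroup A) (hK : K.Normal) (hi : K.index = p) :
    (∀ x : A, x ^ p ∈ K) ∧ ∀ x y : A, ⁅x, y⁆ ∈ K := by
  have hc : Nat.card (A ⧸ K) = p := hi
  constructor
  · intro x
    rw [← QuotientGroup.eq_one_iff, QuotientGroup.mk_pow, ← hc, pow_card_eq_one']
  · intro x y
    have : IsCyclic (A ⧸ K) := isCyclic_of_prime_card hc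
    have hcomm : IsMulCommutative (A ⧸ K) := IsCyclic.isMulCommutative
    rw [← QuotientGroup.eq_one_iff, commutatorElement_def, QuotientGroup.mk_mul,
      QuotientGroup.mk_mul, QuotientGroup.mk_mul, QuotientGroup.mk_inv, QuotientGroup.mk_inv,
      hcomm.is_comm.comm (x : A ⧸ K) (y : A ⧸ K)]
    group

/-- The same for a subgroup. -/
theorem l1_max_sub (hΓ : IsPGroup p Γ) (A Y : Subgroup Γ) (hYA : Y ≤ A) (hne : ¬ A ≤ Y) :
    ∃ K : Subgroup Γ, Y ≤ K ∧ K ≤ A ∧ Ph p A ≤ K ∧ K.relIndex A = p := by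
  obtain ⟨K, h1, h2, h3⟩ := l1_max (hΓ.to_subgroup A) (Y.subgroupOf A)
    (fun e => hne (Subgroup.subgroupOf_eq_top.1 e))
  have hKA : K.map A.subtype ≤ A := Subgroup.map_subtype_le K
  have hsub : (K.map A.subtype).subgroupOf A = K := by
    rw [Subgroup.subgroupOf, Subgroup.comap_map_eq_self_of_injective A.subtype_injective]
  obtain ⟨h4, h5⟩ := l1_ph K h2 h3
  refine ⟨K.map A.subtype, ?_, hKA, ?_, ?_⟩
  · intro x hx
    exact ⟨⟨x, hYA hx⟩, h1 (Subgroup.mem_subgroupOf.2 hx), rfl⟩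
  · refine sup_le ?_ ?_
    · rw [Pw, Subgroup.closure_le]
      rintro x ⟨a, ha, rfl⟩
      exact ⟨⟨a, ha⟩ ^ p, h4 _, rfl⟩
    · rw [Subgroup.commutator_le]
      intro x hx y hy
      exact ⟨⁅⟨x, hx⟩, ⟨y, hy⟩⁆, h5 _ _, rfl⟩
  · rw [Subgroup.relIndex, hsub, h3]

/-- Frattini: `A ≤ Y A^p [A, A]`, `Y ≤ A`, implies `A ≤ Y` (`Y` any subgroup). -/
theorem le_of_le_sup_ph (hΓ : IsPGroup p Γ) (A Y : Subgroup Γ) (hYA : Y ≤ A)
    (h : A ≤ Y ⊔ Ph p A) : A ≤ Y := by
  by_contra hne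
  obtain ⟨K, h1, h2, h3, h4⟩ := l1_max_sub hΓ A Y hYA hne
  have h5 : K.relIndex A = 1 := Subgroup.relIndex_eq_one.2 (h.trans (sup_le h1 h3))
  exact (Fact.out : p.Prime).ne_one (h4.symm.trans h5)

omit [Finite Γ] [Fact p.Prime] in
theorem l1_ph_le (A : Subgroup Γ) : Ph p A ≤ A := by
  refine sup_le ?_ ?_
  · rw [Pw, Subgroup.closure_le]
    rintro x ⟨a, ha, rfl⟩
    exact pow_mem ha p
  · rw [Subgroup.commutator_le]
    intro x hx y hy
    rw [commutatorElement_def]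
    exact mul_mem (mul_mem (mul_mem hx hy) (inv_mem hx)) (inv_mem hy)

/-- `A^p [A, A] < A` unless `A = 1`. -/
theorem ph_lt (hΓ : IsPGroup p Γ) (A : Subgroup Γ) (hA : A ≠ ⊥) : Ph p A < A := by
  refine lt_of_le_of_ne (l1_ph_le A) fun e => hA ?_
  have := le_of_le_sup_ph hΓ A ⊥ bot_le (by rw [bot_sup_eq, e])
  exact le_bot_iff.1 this

omit [Finite Γ] in
theorem l1_comm_le (N : Subgroup Γ) (hN : N.Normal) : ⁅N, (⊤ : Subgroup Γ)⁆ ≤ N :=
  Subgroup.commutator_le_left N ⊤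

/-- a normal subgroup of index `p` -/
theorem l1_step (hΓ : IsPGroup p Γ) (M N : Subgroup Γ) (hM : M.Normal) (hN : N.Normal)
    (h : M ≤ N) (hne : ¬ N ≤ M) :
    ∃ K : Subgroup Γ, K.Normal ∧ M ≤ K ∧ K ≤ N ∧ ⁅N, (⊤ : Subgroup Γ)⁆ ≤ K ∧ K.relIndex N = p := by
  have h1 : ¬ N ≤ M ⊔ ⁅N, (⊤ : Subgroup Γ)⁆ := fun h2 => hne (le_of_le_sup_comm hΓ N M hN hM h2)
  have h3 : M ⊔ ⁅N, (⊤ : Subgroup Γ)⁆ ≤ N := sup_le h (l1_comm_le N hN)
  obtain ⟨K, h4, h5, -, h6⟩ := l1_max_sub hΓ N _ h3 h1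
  refine ⟨K, ⟨fun x hx g => ?_⟩, le_sup_left.trans h4, h5, le_sup_right.trans h4, h6⟩
  have h7 : ⁅x, g⁆ ∈ K := h4 (Subgroup.mem_sup_right
    (Subgroup.commutator_mem_commutator (h5 hx) (Subgroup.mem_top g)))
  have h8 := mul_mem (inv_mem h7) hx
  rw [commutatorElement_inv, commutatorElement_def] at h8
  simpa using h8

/-- Normal subgroups between `M` and `N` of all intermediate indices. -/
theorem exists_between (hΓ : IsPGroup p Γ) (M N : Subgroup Γ) (hM : M.Normal) (hN : N.Normal)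
    (h : M ≤ N) (i : ℕ) (hi : p ^ i ≤ M.relIndex N) :
    ∃ K : Subgroup Γ, K.Normal ∧ M ≤ K ∧ K ≤ N ∧ K.relIndex N = p ^ i := by
  have hp : p.Prime := Fact.out
  induction i with
  | zero => exact ⟨N, hN, h, le_rfl, by simp⟩
  | succ i ih =>
    obtain ⟨K, h1, h2, h3, h4⟩ := ih ((Nat.pow_le_pow_right hp.pos (Nat.le_succ i)).trans hi)
    have h5 := Subgroup.relIndex_mul_relIndex M K N h2 h3
    have hne : ¬ K ≤ M := by
      intro h6
      rw [Subgroup.relIndex_eq_one.2 h6, one_mul, h4] at h5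
      rw [← h5] at hi
      exact absurd hi (not_le.2 (Nat.pow_lt_pow_right hp.one_lt (Nat.lt_succ_self i)))
    obtain ⟨K', h6, h7, h8, -, h9⟩ := l1_step hΓ M K hM h1 h2 hne
    refine ⟨K', h6, h7, h8.trans h3, ?_⟩
    rw [← Subgroup.relIndex_mul_relIndex K' K N h8 h3, h9, h4, pow_succ']

/-- Small normal section of order `p` is central. -/
theorem comm_le_of_relIndex_eq (hΓ : IsPGroup p Γ) (M N : Subgroup Γ) (hM : M.Normal)
    (hN : N.Normal) (h : M ≤ N) (hi : M.relIndex N ≤ p) : ⁅N, (⊤ : Subgroup Γ)⁆ ≤ M := by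
  have hp : p.Prime := Fact.out
  by_cases hne : N ≤ M
  · exact (l1_comm_le N hN).trans hne
  · obtain ⟨K, -, h7, h8, h10, h9⟩ := l1_step hΓ M N hM hN h hne
    have h5 := Subgroup.relIndex_mul_relIndex M K N h7 h8
    rw [h9] at h5
    have h11 : M.relIndex K = 1 := by
      have h12 : M.relIndex K * p ≤ 1 * p := by
        rw [h5, one_mul]
        exact hi
      have h13 := Nat.le_of_mul_le_mul_right h12 hp.pos
      have h14 : M.relIndex K ≠ 0 := by
        intro e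
        rw [e, zero_mul] at h5
        exact Subgroup.index_ne_zero_of_finite (H := M.subgroupOf N) h5.symm
      omega
    exact h10.trans (Subgroup.relIndex_eq_one.1 h11)

end Pool.Agent.Helper75.LS
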