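import Pool.Agent.Helper75.LS.L1

set_option autoImplicit false

open scoped commutatorElement

namespace Pool.Agent.Helper75.LS

variable {Γ : Type} [Group Γ]

/-- `Pw n A` is normal for normal `A`. -/
theorem pw_normal (n : ℕ) (A : Subgroup Γ) (hA : A.Normal) : (Pw n A).Normal := by
  refine ⟨fun x hx g => ?_⟩
  unfold Pw at hx ⊢
  refine Subgroup.closure_induction (p := fun x _ => g * x * g⁻¹ ∈
    Subgroup.closure {x : Γ | ∃ a ∈ A, x = a ^ n}) ?_ ?_ ?_ ?_ hx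
  · rintro x ⟨a, ha, rfl⟩
    exact Subgroup.subset_closure ⟨g * a * g⁻¹, hA.conj_mem a ha g, by rw [conj_pow]⟩
  · simp [Subgroup.one_mem]
  · intro x y _ _ hx hy
    have : g * (x * y) * g⁻¹ = (g * x * g⁻¹) * (g * y * g⁻¹) := by group
    rw [this]; exact Subgroup.mul_mem _ hx hy
  · intro x _ hx
    have : g * x⁻¹ * g⁻¹ = (g * x * g⁻¹)⁻¹ := by group
    rw [this]; exact Subgroup.inv_mem _ hx

theorem pw_le (n : ℕ) (A : Subgroup Γ) : Pw n A ≤ A := by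
  unfold Pw
  rw [Subgroup.closure_le]
  rintro x ⟨a, ha, rfl⟩
  exact A.pow_mem ha n

theorem pw_mono {n : ℕ} {A B : Subgroup Γ} (h : A ≤ B) : Pw n A ≤ Pw n B := by
  unfold Pw
  apply Subgroup.closure_mono
  rintro x ⟨a, ha, rfl⟩
  exact ⟨a, h ha, rfl⟩

theorem pw_qq_le (p : ℕ) (A : Subgroup Γ) : Pw (qq p) A ≤ Pw p A := by
  unfold Pw qq
  split_ifs with h
  · subst h
    apply Subgroup.closure_mono
    rintro x ⟨a, ha, rfl⟩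
    exact ⟨a ^ 2, A.pow_mem ha 2, by rw [← pow_mul]⟩
  · exact le_refl _

/-- `[A^p, B] ≤ [A, B]^p` if `[A, B]` is powerfully embedded. -/
theorem comm_pow (p : ℕ) (A B : Subgroup Γ) (hA : A.Normal) (hB : B.Normal)
    (h : PE p ⁅A, B⁆) : ⁅Pw p A, B⁆ ≤ Pw p ⁅A, B⁆ := by
  obtain ⟨hC, hCt⟩ := h
  have hK : (Pw p ⁅A, B⁆).Normal := pw_normal p _ hC
  have hcen : ∀ c ∈ ⁅A, B⁆, ∀ g : Γ, ⁅c, g⁆ ∈ Pw p ⁅A, B⁆ := fun c hc g =>
    pw_qq_le p _ (hCt (Subgroup.commutator_mem_commutator hc (Subgroup.mem_top g)))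
  -- powers
  have hpow : ∀ a ∈ A, ∀ b ∈ B, ∀ n : ℕ,
      ∃ k ∈ Pw p ⁅A, B⁆, ⁅a ^ n, b⁆ = ⁅a, b⁆ ^ n * k := by
    intro a ha b hb n
    have hc : ⁅a, b⁆ ∈ ⁅A, B⁆ := Subgroup.commutator_mem_commutator ha hb
    induction n with
    | zero => exact ⟨1, Subgroup.one_mem _, by simp⟩
    | succ n ih =>
      obtain ⟨k, hk, hkn⟩ := ih
      -- [a^(n+1), b] = a [a^n, b] a⁻¹ [a, b]
      have e1 : ⁅a ^ (n + 1), b⁆ = a * ⁅a ^ n, b⁆ * a⁻¹ * ⁅a, b⁆ := by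
        rw [pow_succ']; simp only [commutatorElement_def]; group
      have hcn : ⁅a, b⁆ ^ n ∈ ⁅A, B⁆ := Subgroup.pow_mem _ hc n
      have h1 := hcen _ hcn a
      -- a c^n a⁻¹ = c^n * (c^n)⁻¹ a c^n a⁻¹
      have h2 : (⁅a, b⁆ ^ n)⁻¹ * (a * ⁅a, b⁆ ^ n * a⁻¹) ∈ Pw p ⁅A, B⁆ := by
        have h3 := hcen _ (Subgroup.inv_mem _ hcn) a
        have : (⁅a, b⁆ ^ n)⁻¹ * (a * ⁅a, b⁆ ^ n * a⁻¹) = ⁅(⁅a, b⁆ ^ n)⁻¹, a⁆ := by
          simp only [commutatorElement_def, inv_inv]; group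
        rw [this]; exact h3
      have h4 : a * k * a⁻¹ ∈ Pw p ⁅A, B⁆ := hK.conj_mem k hk a
      refine ⟨⁅a, b⁆⁻¹ * ((⁅a, b⁆ ^ n)⁻¹ * (a * ⁅a, b⁆ ^ n * a⁻¹) * (a * k * a⁻¹)) * ⁅a, b⁆, ?_, ?_⟩
      · have := hK.conj_mem _ (Subgroup.mul_mem _ h2 h4) ⁅a, b⁆⁻¹
        rwa [inv_inv] at this
      · rw [e1, hkn, pow_succ]; group
  rw [Subgroup.commutator_le]
  intro x hx b hb
  unfold Pw at hx
  refine Subgroup.closure_induction (p := fun x _ => ⁅x, b⁆ ∈ Pw p ⁅A, B⁆) ?_ ?_ ?_ ?_ hx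
  · rintro x ⟨a, ha, rfl⟩
    obtain ⟨k, hk, e⟩ := hpow a ha b hb p
    rw [e]
    refine Subgroup.mul_mem _ ?_ hk
    exact Subgroup.subset_closure ⟨⁅a, b⁆, Subgroup.commutator_mem_commutator ha hb, rfl⟩
  · simp [Subgroup.one_mem]
  · intro x y _ _ hx hy
    have : ⁅x * y, b⁆ = (x * ⁅y, b⁆ * x⁻¹) * ⁅x, b⁆ := by
      simp only [commutatorElement_def]; group
    rw [this]; exact Subgroup.mul_mem _ (hK.conj_mem _ hy x) hx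
  · intro x _ hx
    have : ⁅x⁻¹, b⁆ = x⁻¹ * ⁅x, b⁆⁻¹ * x⁻¹⁻¹ := by
      simp only [commutatorElement_def]; group
    rw [this]; exact hK.conj_mem _ (Subgroup.inv_mem _ hx) x⁻¹

end Pool.Agent.Helper75.LS
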