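import Pool.Agent.Helper75.LS.L1
import Pool.Agent.Helper75.LS.L2

set_option autoImplicit false

namespace Pool.Agent.Helper75.LS

open scoped commutatorElement

variable {Γ : Type} [Group Γ]

private theorem l9_prime {K L N : Subgroup Γ} {p : ℕ} [Fact p.Prime] (h : K ≤ L) (h' : L ≤ N)
    (hp : K.relIndex N = p) : L ≤ K ∨ N ≤ L := by
  have h1 := Subgroup.relIndex_mul_relIndex K L N h h'
  rw [hp] at h1
  have h2 : K.relIndex L ∣ p := Dvd.intro _ h1
  rcases (Nat.dvd_prime Fact.out).1 h2 with h3 | h3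
  · exact Or.inl (Subgroup.relIndex_eq_one.1 h3)
  · right
    rw [h3] at h1
    have h4 : L.relIndex N = 1 := by
      have h5 : 0 < p := (Fact.out : p.Prime).pos
      exact Nat.eq_of_mul_eq_mul_left h5 (by rw [h1, mul_one])
    exact Subgroup.relIndex_eq_one.1 h4

private theorem l9_index [Finite Γ] {p : ℕ} [Fact p.Prime] (hΓ : IsPGroup p Γ) (M N : Subgroup Γ)
    (h : ¬ N ≤ M) : p ^ 1 ≤ M.relIndex N := by
  obtain ⟨n, hn⟩ := (hΓ.to_subgroup N).index (M.subgroupOf N)
  have h1 : M.relIndex N = p ^ n := hn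
  have h2 : n ≠ 0 := by
    rintro rfl
    exact h (Subgroup.relIndex_eq_one.1 (by rw [h1, pow_zero]))
  rw [h1]
  exact Nat.pow_le_pow_right (Fact.out : p.Prime).pos (Nat.one_le_iff_ne_zero.2 h2)

private theorem l9_comm {K N M : Subgroup Γ} {p : ℕ} [Fact p.Prime] (hM : M.Normal) (h : K ≤ N)
    (hi : K.relIndex N = p) (hc : ⁅K, N⁆ ≤ M) : ⁅N, N⁆ ≤ M := by
  have hmem : ∀ a b : Γ, ⁅a, b⁆ ∈ M ↔
      QuotientGroup.mk' M a * QuotientGroup.mk' M b = QuotientGroup.mk' M b * QuotientGroup.mk' M a := by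
    intro a b
    rw [← QuotientGroup.eq_one_iff (N := M), ← commutatorElement_eq_one_iff_mul_comm]
    rfl
  have hNK : ¬ N ≤ K := fun h1 => by
    have h2 := Subgroup.relIndex_eq_one.2 h1
    rw [hi] at h2
    exact (Fact.out : p.Prime).one_lt.ne' h2
  obtain ⟨x, hx, hxK⟩ := SetLike.not_le_iff_exists.1 hNK
  -- every subgroup of `N` containing `K` and `x` contains `N`
  have hall : ∀ L : Subgroup Γ, K ≤ L → x ∈ L → N ≤ L := by
    intro L h1 h2
    have h3 := l9_prime (K := K) (L := L ⊓ N) (N := N) (p := p) (le_inf h1 h) inf_le_right hi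
    rcases h3 with h4 | h4
    · exact absurd (h4 ⟨h2, hx⟩) hxK
    · exact h4.trans inf_le_left
  have h1 : ∀ b, b ∈ N → (∀ k ∈ K, ⁅k, b⁆ ∈ M) := fun b hb k hk =>
    hc (Subgroup.commutator_mem_commutator hk hb)
  have h2 : ∀ a ∈ N, ⁅a, x⁆ ∈ M := by
    have h3 := hall ((Subgroup.centralizer {QuotientGroup.mk' M x}).comap (QuotientGroup.mk' M))
      (fun k hk => by
        rw [Subgroup.mem_comap, Subgroup.mem_centralizer_singleton_iff]
        exact (hmem _ _).1 (h1 x hx k hk))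
      (by
        rw [Subgroup.mem_comap, Subgroup.mem_centralizer_singleton_iff])
    intro a ha
    have h4 := h3 ha
    rw [Subgroup.mem_comap, Subgroup.mem_centralizer_singleton_iff] at h4
    exact (hmem _ _).2 h4
  rw [Subgroup.commutator_le]
  intro a ha b hb
  have h3 := hall ((Subgroup.centralizer {QuotientGroup.mk' M b}).comap (QuotientGroup.mk' M))
      (fun k hk => by
        rw [Subgroup.mem_comap, Subgroup.mem_centralizer_singleton_iff]
        exact (hmem _ _).1 (h1 b hb k hk))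
      (by
        rw [Subgroup.mem_comap, Subgroup.mem_centralizer_singleton_iff]
        exact ((hmem _ _).1 (h2 b hb)).symm)
  have h4 := h3 ha
  rw [Subgroup.mem_comap, Subgroup.mem_centralizer_singleton_iff] at h4
  exact (hmem _ _).2 h4

variable [Finite Γ] {p : ℕ} [Fact p.Prime]

private theorem l9_main (hΓ : IsPGroup p Γ) (W : Subgroup Γ) (hW : W.Normal) (r : ℕ)
    (hg : Good p W r) (m : ℕ) : ∀ N M₁ : Subgroup Γ, N.Normal → M₁.Normal → N ≤ W → M₁ ≤ N →
      Pw p N ≤ M₁ → (M₁ ⊔ ⁅N, N⁆).relIndex N ≤ p ^ r → M₁.relIndex N ≤ m → ⁅N, W⁆ ≤ M₁ := by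
  have hfin : ∀ A B : Subgroup Γ, A.relIndex B ≠ 0 := fun A B =>
    Subgroup.FiniteIndex.index_ne_zero (H := A.subgroupOf B)
  have hlt : ∀ A B C : Subgroup Γ, A ≤ B → B ≤ C → ¬ B ≤ A → B.relIndex C < A.relIndex C := by
    intro A B C h1 h2 h3
    rw [← Subgroup.relIndex_mul_relIndex A B C h1 h2]
    have h4 : 1 < A.relIndex B := by
      have h5 : A.relIndex B ≠ 1 := fun h6 => h3 (Subgroup.relIndex_eq_one.1 h6)
      have := hfin A B
      omega
    have h5 : 0 < B.relIndex C := Nat.pos_of_ne_zero (hfin B C)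
    nlinarith
  have hlt' : ∀ A B C : Subgroup Γ, A ≤ B → B ≤ C → ¬ C ≤ B → A.relIndex B < A.relIndex C := by
    intro A B C h1 h2 h3
    rw [← Subgroup.relIndex_mul_relIndex A B C h1 h2]
    have h4 : 1 < B.relIndex C := by
      have h5 : B.relIndex C ≠ 1 := fun h6 => h3 (Subgroup.relIndex_eq_one.1 h6)
      have := hfin B C
      omega
    have h5 : 0 < A.relIndex B := Nat.pos_of_ne_zero (hfin A B)
    nlinarith
  induction m with
  | zero =>
    intro N M₁ _ _ _ _ _ _ h
    exact absurd (Nat.le_zero.1 h) (hfin _ _)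
  | succ m ih =>
    intro N M₁ hN hM hNW hMN hpw hd hm
    by_contra hcon
    have hNn := hN
    have hMn := hM
    have hWn := hW
    have hcn : (⁅N, W⁆ : Subgroup Γ).Normal := Subgroup.commutator_normal N W
    have hcN : ⁅N, W⁆ ≤ N := Subgroup.commutator_le_left N W
    have hNNn : (⁅N, N⁆ : Subgroup Γ).Normal := Subgroup.commutator_normal N N
    have hZn : (⁅N, W⁆ ⊔ M₁ : Subgroup Γ).Normal := Subgroup.sup_normal _ _
    set Z : Subgroup Γ := ⁅N, W⁆ ⊔ M₁ with hZ
    have hZN : Z ≤ N := sup_le hcN hMN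
    have hMZ : M₁ ≤ Z := le_sup_right
    have hZM : ¬ Z ≤ M₁ := fun h => hcon (le_sup_left.trans h)
    obtain ⟨M, hMn', hM1, hM2, hM3⟩ := exists_between hΓ M₁ Z hM hZn hMZ 1 (l9_index hΓ _ _ hZM)
    rw [pow_one] at hM3
    have hZM' : ¬ Z ≤ M := fun h => by
      rw [Subgroup.relIndex_eq_one.2 h] at hM3
      exact (Fact.out : p.Prime).one_lt.ne hM3
    by_cases hMM : M ≤ M₁
    · have hMe : M = M₁ := le_antisymm hMM hM1
      subst hMe
      have hZc : ⁅Z, (⊤ : Subgroup Γ)⁆ ≤ M := comm_le_of_relIndex_eq hΓ M Z hM hZn hMZ hM3.le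
      have hNNZ : ⁅N, N⁆ ≤ Z := (Subgroup.commutator_mono le_rfl hNW).trans le_sup_left
      by_cases hNN : ⁅N, N⁆ ≤ M
      · refine hcon (hg M N hM hN hMN (sup_le hpw hNN) ?_)
        rwa [sup_eq_left.2 hNN] at hd
      · have hZe : M ⊔ ⁅N, N⁆ = Z := by
          refine le_antisymm (sup_le hMZ hNNZ) ?_
          rcases l9_prime (p := p) (K := M) (L := M ⊔ ⁅N, N⁆) (N := Z) le_sup_left
            (sup_le hMZ hNNZ) hM3 with h1 | h1
          · exact absurd (le_sup_right.trans h1) hNN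
          · exact h1
        rw [hZe] at hd
        have hNZ : ¬ N ≤ Z := fun h => hNN
          ((Subgroup.commutator_mono h le_top).trans hZc)
        obtain ⟨K, hK, hK1, hK2, hK3⟩ := exists_between hΓ Z N hZn hN hZN 1 (l9_index hΓ _ _ hNZ)
        rw [pow_one] at hK3
        have hMK : M ≤ K := hMZ.trans hK1
        have hKi : M.relIndex K ≤ p ^ r := by
          have h1 := Subgroup.relIndex_mul_relIndex M Z K hMZ hK1
          have h2 := Subgroup.relIndex_mul_relIndex Z K N hK1 hK2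
          rw [hM3] at h1
          rw [hK3] at h2
          rw [← h1, mul_comm, h2]
          exact hd
        have hNK : ¬ N ≤ K := fun h => by
          rw [Subgroup.relIndex_eq_one.2 h] at hK3
          exact (Fact.out : p.Prime).one_lt.ne hK3
        have hKW : ⁅K, W⁆ ≤ M := by
          refine ih K M hK hM (hK2.trans hNW) hMK ((pw_mono hK2).trans hpw) ?_ ?_
          · refine le_trans ?_ hKi
            have h1 : M ⊔ ⁅K, K⁆ ≤ K := sup_le hMK (by
              have := hK
              exact Subgroup.commutator_le_left K K)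
            rw [← Subgroup.relIndex_mul_relIndex M (M ⊔ ⁅K, K⁆) K le_sup_left h1]
            exact Nat.le_mul_of_pos_left _ (Nat.pos_of_ne_zero (hfin _ _))
          · have := hlt' M K N hMK hK2 hNK
            omega
        exact hNN (l9_comm hM hK2 hK3 ((Subgroup.commutator_mono le_rfl hNW).trans hKW))
    · refine hZM' (sup_le ?_ hM1)
      refine ih N M hN hMn' hNW (hM2.trans hZN) (hpw.trans hM1) ?_ ?_
      · refine le_trans ?_ hd
        have h1 : M ⊔ ⁅N, N⁆ ≤ N := sup_le (hM2.trans hZN) (Subgroup.commutator_le_left N N)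
        rw [← Subgroup.relIndex_mul_relIndex (M₁ ⊔ ⁅N, N⁆) (M ⊔ ⁅N, N⁆) N
          (sup_le_sup_right hM1 _) h1]
        exact Nat.le_mul_of_pos_left _ (Nat.pos_of_ne_zero (hfin _ _))
      · have := hlt M₁ M N hM1 (hM2.trans hZN) hMM
        omega

/-- A normal subgroup of `W` with few generators satisfies `[N, W] ≤ N ^ p`. -/
theorem crit (hΓ : IsPGroup p Γ) (W N : Subgroup Γ) (hW : W.Normal) (hN : N.Normal) (r : ℕ)
    (hg : Good p W r) (hNW : N ≤ W) (hd : (Ph p N).relIndex N ≤ p ^ r) :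
    ⁅N, W⁆ ≤ Pw p N :=
  l9_main hΓ W hW r hg _ N (Pw p N) hN (pw_normal p N hN) hNW (pw_le p N) le_rfl hd le_rfl

end Pool.Agent.Helper75.LS
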