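import Pool.Agent.Helper75.LS.L8
import Pool.Agent.Helper75.LS.L9

set_option autoImplicit false

open scoped commutatorElement

namespace Pool.Agent.Helper75.LS

private theorem l10_core {Γ : Type} [Group Γ] (W N M Z : Subgroup Γ) (hN : N.Normal)
    (hM : M.Normal) (hNN : ∀ x ∈ N, ∀ y ∈ N, ⁅x, y⁆ ∈ Z) (hZ : ∀ z ∈ Z, ∀ g : Γ, ⁅z, g⁆ ∈ M)
    (hZ2 : ∀ z ∈ Z, z ^ 2 ∈ M) (h4 : ∀ x ∈ N, x ^ 4 ∈ M) (hc : ⁅N, W⁆ ≤ Pw 2 N) :
    ⁅N, ⁅W, W⁆⁆ ≤ M := by
  classical
  set π : Γ →* Γ ⧸ M := QuotientGroup.mk' M with hπ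
  have hone : ∀ a : Γ, a ∈ M ↔ π a = 1 := fun a => (QuotientGroup.eq_one_iff a).symm
  have hcm : ∀ a b : Γ, ⁅a, b⁆ ∈ M ↔ π a * π b = π b * π a := by
    intro a b
    rw [hone, map_commutatorElement, commutatorElement_eq_one_iff_mul_comm]
  have hsq : ∀ x ∈ N, ∀ y ∈ N, π (x ^ 2) * π y = π y * π (x ^ 2) := by
    intro x hx y hy
    have hc0 : π ⁅x, y⁆ = ⁅π x, π y⁆ := map_commutatorElement π x y
    have hc1 : ⁅π x, π y⁆ * ⁅π x, π y⁆ = 1 := by
      rw [← hc0, ← map_mul, ← sq]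
      exact (hone _).1 (hZ2 _ (hNN x hx y hy))
    have hc2 : ∀ g, ⁅π x, π y⁆ * π g = π g * ⁅π x, π y⁆ := by
      intro g
      rw [← hc0]
      exact (hcm _ g).1 (hZ _ (hNN x hx y hy) g)
    have h1 : π x * π y = ⁅π x, π y⁆ * (π y * π x) := by
      rw [commutatorElement_def]
      group
    calc π (x ^ 2) * π y = π x * (π x * π y) := by rw [map_pow, sq, mul_assoc]
      _ = π x * (⁅π x, π y⁆ * (π y * π x)) := by rw [← h1]
      _ = (π x * ⁅π x, π y⁆) * π y * π x := by simp only [mul_assoc]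
      _ = (⁅π x, π y⁆ * π x) * π y * π x := by rw [hc2]
      _ = ⁅π x, π y⁆ * (π x * π y) * π x := by simp only [mul_assoc]
      _ = ⁅π x, π y⁆ * (⁅π x, π y⁆ * (π y * π x)) * π x := by rw [← h1]
      _ = (⁅π x, π y⁆ * ⁅π x, π y⁆) * (π y * (π x * π x)) := by simp only [mul_assoc]
      _ = π y * π (x ^ 2) := by rw [hc1, one_mul, map_pow, sq]
  have hP1 : ∀ u ∈ Pw 2 N, ∀ y ∈ N, π u * π y = π y * π u := by
    intro u hu y hy
    induction hu using Subgroup.closure_induction with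
    | mem x hx =>
      obtain ⟨a, ha, rfl⟩ := hx
      exact hsq a ha y hy
    | one => rw [map_one, one_mul, mul_one]
    | mul a b _ _ iha ihb => rw [map_mul, mul_assoc, ihb, ← mul_assoc, iha, mul_assoc]
    | inv a _ iha =>
      rw [map_inv]
      exact (Commute.inv_left iha)
  have hP2 : ∀ u ∈ Pw 2 N, π u * π u = 1 := by
    intro u hu
    induction hu using Subgroup.closure_induction with
    | mem x hx =>
      obtain ⟨a, ha, rfl⟩ := hx
      rw [← map_mul, ← pow_add]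
      exact (hone _).1 (h4 a ha)
    | one => rw [map_one, one_mul]
    | mul a b ha hb iha ihb =>
      have h1 : π a * π b = π b * π a := hP1 a ha b (pw_le 2 N hb)
      rw [map_mul]
      calc π a * π b * (π a * π b) = (π a * π b) * (π b * π a) := by rw [h1]
        _ = π a * (π b * π b) * π a := by simp only [mul_assoc]
        _ = 1 := by rw [ihb, mul_one, iha]
    | inv a _ iha => rw [map_inv, ← mul_inv_rev, iha, inv_one]
  have hA : ∀ w ∈ W, ∀ a ∈ N, ∃ v ∈ Pw 2 N, π a * π w = π w * (π a * π v) := by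
    intro w hw a ha
    refine ⟨⁅a⁻¹, w⁻¹⁆, hc (Subgroup.commutator_mem_commutator (N.inv_mem ha) (W.inv_mem hw)), ?_⟩
    rw [commutatorElement_def, map_mul, map_mul, map_mul, map_inv, map_inv, map_inv, map_inv]
    group
  have hP3 : ∀ w ∈ W, ∀ u ∈ Pw 2 N, π u * π w = π w * π u := by
    intro w hw u hu
    induction hu using Subgroup.closure_induction with
    | mem x hx =>
      obtain ⟨a, ha, rfl⟩ := hx
      obtain ⟨v, hv, h1⟩ := hA w hw a ha
      have h2 : π v * π a = π a * π v := hP1 v hv a ha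
      have h3 := hP2 v hv
      rw [map_pow, sq]
      calc π a * π a * π w = π a * (π a * π w) := by rw [mul_assoc]
        _ = π a * (π w * (π a * π v)) := by rw [h1]
        _ = (π a * π w) * (π a * π v) := by rw [mul_assoc]
        _ = (π w * (π a * π v)) * (π a * π v) := by rw [h1]
        _ = π w * (π a * (π v * π a) * π v) := by simp only [mul_assoc]
        _ = π w * (π a * (π a * π v) * π v) := by rw [h2]
        _ = π w * (π a * π a) * (π v * π v) := by simp only [mul_assoc]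
        _ = π w * (π a * π a) := by rw [h3, mul_one]
    | one => rw [map_one, one_mul, mul_one]
    | mul a b _ _ iha ihb => rw [map_mul, mul_assoc, ihb, ← mul_assoc, iha, mul_assoc]
    | inv a _ iha =>
      rw [map_inv]
      exact (Commute.inv_left iha)
  have hP4 : ∀ w ∈ W, ∀ x ∈ N, π x * π (w ^ 2) = π (w ^ 2) * π x := by
    intro w hw x hx
    obtain ⟨v, hv, h1⟩ := hA w hw x hx
    have h3 := hP2 v hv
    have h5 := hP3 w hw v hv
    rw [map_pow, sq]
    calc π x * (π w * π w) = (π x * π w) * π w := by rw [mul_assoc]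
      _ = (π w * (π x * π v)) * π w := by rw [h1]
      _ = π w * π x * (π v * π w) := by simp only [mul_assoc]
      _ = π w * π x * (π w * π v) := by rw [h5]
      _ = π w * (π x * π w) * π v := by simp only [mul_assoc]
      _ = π w * (π w * (π x * π v)) * π v := by rw [h1]
      _ = π w * π w * π x * (π v * π v) := by simp only [mul_assoc]
      _ = π w * π w * π x := by rw [h3, mul_one]
  have hNn : (N.map π).Normal := hN.map π (QuotientGroup.mk'_surjective M)
  let C : Subgroup Γ := (Subgroup.centralizer ((N.map π : Subgroup (Γ ⧸ M)) : Set (Γ ⧸ M))).comap π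
  have hCn : C.Normal := inferInstance
  have hC : ∀ g : Γ, g ∈ C ↔ ∀ x ∈ N, π x * π g = π g * π x := by
    intro g
    constructor
    · intro hg x hx
      exact (Subgroup.mem_centralizer_iff.1 (Subgroup.mem_comap.1 hg)) _
        (Subgroup.mem_map_of_mem π hx)
    · intro hg
      rw [Subgroup.mem_comap, Subgroup.mem_centralizer_iff]
      rintro _ ⟨x, hx, rfl⟩
      exact hg x hx
  have hVC : ⁅W, W⁆ ≤ C := by
    rw [Subgroup.commutator_le]
    intro a ha b hb
    have h1 : ∀ w ∈ W, w ^ 2 ∈ C := fun w hw => (hC _).2 (hP4 w hw)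
    have h2 : ⁅a, b⁆ = (a * b) ^ 2 * (b⁻¹ * (a⁻¹) ^ 2 * (b⁻¹)⁻¹) * (b⁻¹) ^ 2 := by
      rw [commutatorElement_def, sq (a * b)]
      group
    rw [h2]
    exact C.mul_mem (C.mul_mem (h1 _ (W.mul_mem ha hb))
      (hCn.conj_mem _ (h1 _ (W.inv_mem ha)) _)) (h1 _ (W.inv_mem hb))
  rw [Subgroup.commutator_le]
  intro x hx v hv
  rw [hcm]
  exact (hC v).1 (hVC hv) x hx

variable {Γ : Type} [Group Γ] [Finite Γ]

/-- The prime `2`: a normal subgroup of `[W, W]` with few generators satisfies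
`[N, [W, W]] ≤ N ^ 4`. -/
theorem crit_two (hΓ : IsPGroup 2 Γ) (W N : Subgroup Γ) (hW : W.Normal) (hN : N.Normal) (r : ℕ)
    (hg : Good 2 W r) (hNW : N ≤ ⁅W, W⁆) (hd : (Ph 2 N).relIndex N ≤ 2 ^ r) :
    ⁅N, ⁅W, W⁆⁆ ≤ Pw 4 N := by
  classical
  have : Fact (Nat.Prime 2) := ⟨Nat.prime_two⟩
  have hVn : (⁅W, W⁆ : Subgroup Γ).Normal := Subgroup.commutator_normal W W
  have hVW : ⁅W, W⁆ ≤ W := Subgroup.commutator_le_left W W
  have hcrit : ⁅N, W⁆ ≤ Pw 2 N := crit hΓ W N hW hN r hg (hNW.trans hVW) hd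
  have key : ∀ (n : ℕ) (M : Subgroup Γ), M.Normal → Pw 4 N ≤ M → M ≤ N → M.relIndex N = n →
      ⁅N, ⁅W, W⁆⁆ ≤ M := by
    intro n
    induction n using Nat.strong_induction_on with
    | _ n ih =>
    intro M hM h4 hMN hn
    by_contra hcon
    have hZN : ⁅N, ⁅W, W⁆⁆ ⊔ M ≤ N := sup_le (Subgroup.commutator_le_left N _) hMN
    have hZn : (⁅N, ⁅W, W⁆⁆ ⊔ M).Normal := by
      have : (⁅N, ⁅W, W⁆⁆ : Subgroup Γ).Normal := Subgroup.commutator_normal N _
      exact Subgroup.sup_normal _ _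
    have hMZ : M ≤ ⁅N, ⁅W, W⁆⁆ ⊔ M := le_sup_right
    have hne : ¬ ⁅N, ⁅W, W⁆⁆ ⊔ M ≤ M := fun h => hcon (le_sup_left.trans h)
    have hpos : ∀ A B : Subgroup Γ, A.relIndex B ≠ 0 := fun A B =>
      Subgroup.FiniteIndex.index_ne_zero
    have h2 : 2 ^ 1 ≤ M.relIndex (⁅N, ⁅W, W⁆⁆ ⊔ M) := by
      have h0 := hpos M (⁅N, ⁅W, W⁆⁆ ⊔ M)
      have h1 : M.relIndex (⁅N, ⁅W, W⁆⁆ ⊔ M) ≠ 1 := fun h => hne (Subgroup.relIndex_eq_one.1 h)
      omega
    obtain ⟨K, hK, hMK, hKZ, hKi⟩ := exists_between hΓ M _ hM hZn hMZ 1 h2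
    have hKM : K = M := by
      by_contra hne'
      have hlt : K.relIndex N < M.relIndex N := by
        have h3 := Subgroup.relIndex_mul_relIndex M K N hMK (hKZ.trans hZN)
        have h5 := hpos M K
        have h6 : M.relIndex K ≠ 1 := fun h =>
          hne' (le_antisymm (Subgroup.relIndex_eq_one.1 h) hMK)
        have h7 := hpos K N
        rw [← h3]
        have h8 : 2 ≤ M.relIndex K := by omega
        nlinarith [Nat.pos_of_ne_zero h7]
      have h5 := ih _ (hn ▸ hlt) K hK (h4.trans hMK) (hKZ.trans hZN) rfl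
      have h6 : ⁅N, ⁅W, W⁆⁆ ⊔ M ≤ K := sup_le h5 hMK
      have h7 : K.relIndex (⁅N, ⁅W, W⁆⁆ ⊔ M) = 1 := Subgroup.relIndex_eq_one.2 h6
      rw [h7] at hKi
      norm_num at hKi
    rw [hKM, pow_one] at hKi
    have hcent := comm_le_of_relIndex_eq hΓ M _ hM hZn hMZ hKi.le
    apply hcon
    apply l10_core W N M (⁅N, ⁅W, W⁆⁆ ⊔ M) hN hM
    · intro x hx y hy
      exact le_sup_left (a := ⁅N, ⁅W, W⁆⁆)
        (Subgroup.commutator_mem_commutator hx (hNW hy))
    · intro z hz g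
      exact hcent (Subgroup.commutator_mem_commutator hz (Subgroup.mem_top g))
    · intro z hz
      have h1 := Subgroup.pow_index_mem (M.subgroupOf (⁅N, ⁅W, W⁆⁆ ⊔ M)) ⟨z, hz⟩
      have h3 : (M.subgroupOf (⁅N, ⁅W, W⁆⁆ ⊔ M)).index = 2 := hKi
      rw [h3, Subgroup.mem_subgroupOf] at h1
      exact h1
    · intro x hx
      exact h4 (Subgroup.subset_closure ⟨x, hx, rfl⟩)
    · exact hcrit
  have hPn : (Pw 4 N).Normal := pw_normal 4 N hN
  exact key _ (Pw 4 N) hPn le_rfl (pw_le 4 N) rfl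

/-- Normal subgroups with few generators deep in the derived series are powerful. -/
theorem powerful_of {p : ℕ} [Fact p.Prime] (hΓ : IsPGroup p Γ) (N : Subgroup Γ) (hN : N.Normal)
    (k : ℕ) (hNk : N ≤ derivedSeries Γ (k + 1)) (hd : (Ph p N).relIndex N ≤ p ^ 2 ^ k) :
    ⁅N, N⁆ ≤ Pw (qq p) N := by
  have hWn : (derivedSeries Γ k).Normal := derivedSeries_normal Γ k
  have hle : N ≤ derivedSeries Γ k := hNk.trans (derivedSeries_antitone Γ (Nat.le_succ k))
  by_cases h2 : p = 2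
  · subst h2
    have h1 : qq 2 = 4 := if_pos rfl
    rw [h1]
    rw [derivedSeries_succ] at hNk
    exact (Subgroup.commutator_mono le_rfl hNk).trans
      (crit_two hΓ (derivedSeries Γ k) N hWn hN (2 ^ k) (good_derived hΓ k) hNk hd)
  · have h1 : qq p = p := if_neg h2
    rw [h1]
    exact (Subgroup.commutator_mono le_rfl hle).trans
      (crit hΓ (derivedSeries Γ k) N hWn hN (2 ^ k) (good_derived hΓ k) hle hd)

end Pool.Agent.Helper75.LS
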