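import Pool.Agent.Helper75.LS.L1
import Pool.Agent.Helper75.LS.L2
import Pool.Agent.Helper56.RS.GrowB1
import Pool.Agent.Helper75.RS.B3

set_option autoImplicit false

open scoped Pointwise

namespace Pool.Agent.Helper75.LS

open Pool.Agent.Helper98.RS

variable {G : Type} [Group G] {P : Type} [Group P] [Finite P] {p : ℕ} [Fact p.Prime]

section aux

variable {Q : Type} [Group Q]

theorem Bl_image (f : G →* Q) (S : Set G) (r : ℕ) : Bl (f '' S) r = f '' Bl S r := by
  unfold Bl
  rw [Set.image_pow, Set.image_union, Set.image_union, Set.image_inv]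
  simp

theorem closure_image (f : G →* Q) (hf : Function.Surjective f) (S : Set G)
    (hS : Subgroup.closure S = ⊤) : Subgroup.closure (f '' S) = ⊤ := by
  rw [← MonoidHom.map_closure, hS, ← MonoidHom.range_eq_map, MonoidHom.range_eq_top]
  exact hf

theorem Cl_chain (S : Set Q) (hS : Subgroup.closure S = ⊤) (y : Q) (D : ℕ)
    (hV : Nat.card (Subgroup.normalClosure {y}) = p ^ D) (k : ℕ) :
    Helper75.RS.Cl S y k = Subgroup.normalClosure {y} ∨
      p ^ (k + 1) ≤ Nat.card (Helper75.RS.Cl S y k) := by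
  have hp : p.Prime := Fact.out
  have hle : ∀ r, Helper75.RS.Cl S y r ≤ Subgroup.normalClosure {y} := by
    intro r
    unfold Helper75.RS.Cl
    rw [Subgroup.closure_le]
    rintro g ⟨z, _, rfl⟩
    have hy : y ∈ Subgroup.normalClosure {y} := Subgroup.subset_normalClosure rfl
    have := Subgroup.normalClosure_normal.conj_mem y hy z⁻¹
    simpa using this
  induction k with
  | zero =>
    by_cases hy : y = 1
    · left
      apply le_antisymm (hle 0)
      apply Subgroup.normalClosure_le_normal (N := ⊥) ?_ |>.trans bot_le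
      simp [hy]
    · right
      have h := Helper56.RS.card_mul_le hp _ ⊥ (Helper75.RS.Cl S y 0) hV (hle 0) bot_le (by
        intro h
        have h1 : y ∈ (⊥ : Subgroup Q) := by rw [h]; exact Helper75.RS.mem_Cl S y 0
        exact hy (by simpa using h1))
      simpa using h
  | succ k ih =>
    rcases ih with ih | ih
    · left
      apply le_antisymm (hle _)
      rw [← ih]
      exact Helper75.RS.Cl_mono (Nat.le_succ k)
    · by_cases h : Helper75.RS.Cl S y (k + 1) ≤ Helper75.RS.Cl S y k
      · left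
        have hn := Helper75.RS.Cl_normal hS h
        apply le_antisymm (hle _)
        have h1 : Subgroup.normalClosure {y} ≤ Helper75.RS.Cl S y k := by
          apply Subgroup.normalClosure_le_normal
          simpa using Helper75.RS.mem_Cl S y k
        exact h1.trans (Helper75.RS.Cl_mono (Nat.le_succ k))
      · right
        have h1 := Helper56.RS.card_mul_le hp _ (Helper75.RS.Cl S y k) (Helper75.RS.Cl S y (k + 1))
          hV (hle _) (Helper75.RS.Cl_mono (Nat.le_succ k)) (fun e => h (le_of_eq e.symm))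
        calc p ^ (k + 1 + 1) = p ^ (k + 1) * p := by rw [pow_succ]
          _ ≤ Nat.card (Helper75.RS.Cl S y k) * p := Nat.mul_le_mul_right _ ih
          _ ≤ _ := h1

theorem Cl_top (S : Set Q) (hS : Subgroup.closure S = ⊤) (y : Q) (D : ℕ)
    (hV : Nat.card (Subgroup.normalClosure {y}) = p ^ D) :
    Subgroup.normalClosure {y} ≤ Helper75.RS.Cl S y D := by
  have hp : p.Prime := Fact.out
  rcases Cl_chain (p := p) S hS y D hV D with h | h
  · exact h.ge
  · exfalso
    have hfin : Finite (Subgroup.normalClosure {y}) :=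
      Nat.finite_of_card_ne_zero (by rw [hV]; exact (pow_pos hp.pos _).ne')
    have hle : Helper75.RS.Cl S y D ≤ Subgroup.normalClosure {y} := by
      unfold Helper75.RS.Cl
      rw [Subgroup.closure_le]
      rintro g ⟨z, _, rfl⟩
      have hy : y ∈ Subgroup.normalClosure {y} := Subgroup.subset_normalClosure rfl
      have := Subgroup.normalClosure_normal.conj_mem y hy z⁻¹
      simpa using this
    have h1 := Subgroup.card_le_of_le hle
    rw [hV] at h1
    have := (Nat.pow_le_pow_iff_right hp.one_lt).1 (h.trans h1)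
    omega

theorem Cl_image (f : G →* Q) (S : Set G) (x : G) (r : ℕ) :
    Helper75.RS.Cl (f '' S) (f x) r = Subgroup.closure {y | ∃ z ∈ Bl S r, y = f (z⁻¹ * x * z)} := by
  unfold Helper75.RS.Cl
  congr 1
  ext g
  constructor
  · rintro ⟨z, hz, rfl⟩
    rw [Bl_image] at hz
    obtain ⟨w, hw, rfl⟩ := hz
    exact ⟨w, hw, by simp⟩
  · rintro ⟨z, hz, rfl⟩
    exact ⟨f z, by rw [Bl_image]; exact ⟨z, hz, rfl⟩, by simp⟩

/-- growth in a group in which the normal closure is elementary abelian -/
theorem grow_aux (S : Set G) (hS : Subgroup.closure S = ⊤) (f : G →* Q)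
    (hf : Function.Surjective f) (x : G) (D L : ℕ) (hx : x ∈ Bl S L)
    (hV : Nat.card (Subgroup.normalClosure {f x}) = p ^ D)
    (hcomm : ∀ a ∈ Subgroup.normalClosure {f x}, ∀ b ∈ Subgroup.normalClosure {f x},
      a * b = b * a) (hexp : ∀ a ∈ Subgroup.normalClosure {f x}, a ^ p = 1) :
    ∀ k ≤ D, ∃ (E : Finset G) (W : Subgroup Q), (∀ e ∈ E, e ∈ Bl S (k * (L + 2 * D))) ∧
      E.card = 2 ^ k ∧ (∀ e ∈ E, f e ∈ W) ∧ W ≤ Subgroup.normalClosure {f x} ∧
      Nat.card W ≤ p ^ k := by
  classical
  have hp : p.Prime := Fact.out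
  have hfin : Finite (Subgroup.normalClosure {f x}) :=
    Nat.finite_of_card_ne_zero (by rw [hV]; exact (pow_pos hp.pos _).ne')
  intro k
  induction k with
  | zero =>
    intro _
    refine ⟨{1}, ⊥, ?_, by simp, ?_, bot_le, by simp⟩
    · intro e he
      rw [Finset.mem_singleton] at he
      subst he
      exact Helper75.RS.one_mem_Bl _ _
    · intro e he
      rw [Finset.mem_singleton] at he
      subst he
      simp
  | succ k ih =>
    intro hk
    obtain ⟨E, W, hE, hEc, hEW, hWV, hWc⟩ := ih (by omega)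
    have hne : ∃ z ∈ Bl S D, f (z⁻¹ * x * z) ∉ W := by
      by_contra hcon
      push Not at hcon
      have h1 : Helper75.RS.Cl (f '' S) (f x) D ≤ W := by
        rw [Cl_image, Subgroup.closure_le]
        rintro g ⟨z, hz, rfl⟩
        exact hcon z hz
      have h2 := (Cl_top (p := p) (f '' S) (closure_image f hf S hS) (f x) D hV).trans h1
      have hfW : Finite W := Finite.of_injective (Subgroup.inclusion hWV)
        (Subgroup.inclusion_injective hWV)
      have h3 := Subgroup.card_le_of_le h2
      rw [hV] at h3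
      have := (Nat.pow_le_pow_iff_right hp.one_lt).1 (h3.trans hWc)
      omega
    obtain ⟨z, hz, hzW⟩ := hne
    have haV : f (z⁻¹ * x * z) ∈ Subgroup.normalClosure {f x} := by
      have hy : f x ∈ Subgroup.normalClosure {f x} := Subgroup.subset_normalClosure rfl
      have := Subgroup.normalClosure_normal.conj_mem (f x) hy (f z)⁻¹
      simpa using this
    obtain ⟨W', hWW', haW', hW'V, hW'c⟩ := Helper56.RS.exists_sup hp _ W hWV hcomm
      (f (z⁻¹ * x * z)) haV (hexp _ haV)
    have hal : z⁻¹ * x * z ∈ Bl S (D + L + D) :=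
      Helper75.RS.mul_mem_Bl (Helper75.RS.mul_mem_Bl (Helper75.RS.inv_mem_Bl hz) hx) hz
    refine ⟨E ∪ E.image (fun e => e * (z⁻¹ * x * z)), W', ?_, ?_, ?_, hW'V, ?_⟩
    · intro e he
      rw [Finset.mem_union, Finset.mem_image] at he
      rcases he with he | ⟨e, he, rfl⟩
      · exact Helper75.RS.Bl_mono (Nat.mul_le_mul_right _ (Nat.le_succ k)) (hE e he)
      · exact Helper75.RS.Bl_mono (by nlinarith) (Helper75.RS.mul_mem_Bl (hE e he) hal)
    · rw [Finset.card_union_of_disjoint, Finset.card_image_of_injective, hEc, pow_succ]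
      · ring
      · intro a b hab
        simpa using hab
      · rw [Finset.disjoint_left]
        intro e he he'
        rw [Finset.mem_image] at he'
        obtain ⟨a, ha, rfl⟩ := he'
        apply hzW
        have h1 := hEW _ he
        rw [map_mul] at h1
        exact (Subgroup.mul_mem_cancel_left W (hEW a ha)).1 h1
    · intro e he
      rw [Finset.mem_union, Finset.mem_image] at he
      rcases he with he | ⟨a, ha, rfl⟩
      · exact hWW' (hEW e he)
      · rw [map_mul]
        exact Subgroup.mul_mem _ (hWW' (hEW a ha)) haW'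
    · calc Nat.card W' ≤ Nat.card W * p := hW'c
        _ ≤ p ^ k * p := Nat.mul_le_mul_right _ hWc
        _ = p ^ (k + 1) := by rw [pow_succ]

end aux

theorem ph_normal {Γ : Type} [Group Γ] (p : ℕ) (A : Subgroup Γ) (hA : A.Normal) :
    (Ph p A).Normal := by
  have := hA
  have := pw_normal p A hA
  unfold Ph
  infer_instance

theorem ph_le {Γ : Type} [Group Γ] (p : ℕ) (A : Subgroup Γ) : Ph p A ≤ A := by
  unfold Ph
  refine sup_le (pw_le p A) (Subgroup.commutator_le.2 ?_)
  intro a ha b hb
  rw [commutatorElement_def]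
  exact A.mul_mem (A.mul_mem (A.mul_mem ha hb) (A.inv_mem ha)) (A.inv_mem hb)

/-- The quotient by `Ph p X`, `X` the normal closure of `f x`. -/
theorem quot_facts (f : G →* P) (hf : Function.Surjective f) (x : G) (D : ℕ)
    (hD : (Ph p (Subgroup.normalClosure {f x})).relIndex (Subgroup.normalClosure {f x}) = p ^ D) :
    ∃ (Q : Type) (_ : Group Q) (q : P →* Q), Function.Surjective q ∧
      q.ker = Ph p (Subgroup.normalClosure {f x}) ∧
      Nat.card (Subgroup.normalClosure {q (f x)}) = p ^ D ∧
      (∀ a ∈ Subgroup.normalClosure {q (f x)}, ∀ b ∈ Subgroup.normalClosure {q (f x)},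
        a * b = b * a) ∧ (∀ a ∈ Subgroup.normalClosure {q (f x)}, a ^ p = 1) := by
  set X := Subgroup.normalClosure {f x} with hX
  have hn : (Ph p X).Normal := ph_normal p X Subgroup.normalClosure_normal
  have hsurj : Function.Surjective (QuotientGroup.mk' (Ph p X)) := QuotientGroup.mk'_surjective _
  have hker : (QuotientGroup.mk' (Ph p X)).ker = Ph p X := QuotientGroup.ker_mk' _
  have hmap : X.map (QuotientGroup.mk' (Ph p X)) =
      Subgroup.normalClosure {QuotientGroup.mk' (Ph p X) (f x)} :=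
    (Subgroup.map_normalClosure _ _ hsurj).trans (by rw [Set.image_singleton])
  refine ⟨P ⧸ Ph p X, inferInstance, QuotientGroup.mk' (Ph p X), hsurj, hker, ?_, ?_, ?_⟩
  · rw [← hmap, ← Subgroup.relIndex_ker, hker]
    exact hD
  · rw [← hmap]
    rintro _ ⟨a, ha, rfl⟩ _ ⟨b, hb, rfl⟩
    rw [← map_mul, ← map_mul]
    have h1 : (b * a)⁻¹ * (a * b) ∈ (QuotientGroup.mk' (Ph p X)).ker := by
      rw [hker]
      have h2 := Subgroup.commutator_mem_commutator (X.inv_mem ha) (X.inv_mem hb)
      rw [commutatorElement_def] at h2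
      have h3 : (b * a)⁻¹ * (a * b) = a⁻¹ * b⁻¹ * a⁻¹⁻¹ * b⁻¹⁻¹ := by group
      rw [h3]
      exact Subgroup.mem_sup_right h2
    rw [MonoidHom.mem_ker, map_mul, map_inv, inv_mul_eq_one] at h1
    exact h1.symm
  · rw [← hmap]
    rintro _ ⟨a, ha, rfl⟩
    rw [← map_pow, ← MonoidHom.mem_ker, hker]
    exact Subgroup.mem_sup_left (Subgroup.subset_closure ⟨a, ha, rfl⟩)

/-- The normal closure of one element is generated by short conjugates. -/
theorem conj_gen (S : Set G) (hS : Subgroup.closure S = ⊤) (f : G →* P)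
    (hf : Function.Surjective f) (hP : IsPGroup p P) (x : G) (D : ℕ)
    (hD : (Ph p (Subgroup.normalClosure {f x})).relIndex (Subgroup.normalClosure {f x}) = p ^ D) :
    Subgroup.normalClosure {f x} =
      Subgroup.closure {y | ∃ z ∈ Bl S D, y = f (z⁻¹ * x * z)} := by
  obtain ⟨Q, _, q, hq, hker, hc, _, _⟩ := quot_facts f hf x D hD
  have hle : Subgroup.closure {y | ∃ z ∈ Bl S D, y = f (z⁻¹ * x * z)} ≤
      Subgroup.normalClosure {f x} := by
    rw [Subgroup.closure_le]
    rintro y ⟨z, _, rfl⟩
    have hy : f x ∈ Subgroup.normalClosure {f x} := Subgroup.subset_normalClosure rfl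
    have := Subgroup.normalClosure_normal.conj_mem (f x) hy (f z)⁻¹
    simpa using this
  apply le_antisymm ?_ hle
  apply le_of_le_sup_ph hP _ _ hle
  have h1 : Subgroup.normalClosure {q (f x)} ≤ Helper75.RS.Cl ((q.comp f) '' S)
      ((q.comp f) x) D :=
    Cl_top (p := p) _ (closure_image (q.comp f) (hq.comp hf) S hS) _ D hc
  rw [Cl_image] at h1
  have h2 : Subgroup.closure {y | ∃ z ∈ Bl S D, y = (q.comp f) (z⁻¹ * x * z)} =
      (Subgroup.closure {y | ∃ z ∈ Bl S D, y = f (z⁻¹ * x * z)}).map q := by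
    rw [MonoidHom.map_closure]
    congr 1
    ext g
    constructor
    · rintro ⟨z, hz, rfl⟩
      exact ⟨f (z⁻¹ * x * z), ⟨z, hz, rfl⟩, rfl⟩
    · rintro ⟨_, ⟨z, hz, rfl⟩, rfl⟩
      exact ⟨z, hz, rfl⟩
  rw [h2] at h1
  intro a ha
  have h3 : q a ∈ Subgroup.normalClosure {q (f x)} := by
    have : q a ∈ (Subgroup.normalClosure {f x}).map q := ⟨a, ha, rfl⟩
    rwa [Subgroup.map_normalClosure _ _ hq, Set.image_singleton] at this
  obtain ⟨b, hb, hab⟩ := h1 h3
  have h4 : b⁻¹ * a ∈ Ph p (Subgroup.normalClosure {f x}) := by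
    rw [← hker, MonoidHom.mem_ker, map_mul, map_inv, inv_mul_eq_one]
    exact hab
  have h5 : a = b * (b⁻¹ * a) := by group
  rw [h5]
  exact Subgroup.mul_mem _ (Subgroup.mem_sup_left hb) (Subgroup.mem_sup_right h4)

/-- Growth: `2 ^ D` elements. -/
theorem grow_count (S : Set G) (hSf : S.Finite) (hS : Subgroup.closure S = ⊤) (f : G →* P)
    (hf : Function.Surjective f) (hP : IsPGroup p P) (x : G) (D L : ℕ) (hx : x ∈ Bl S L)
    (hD : (Ph p (Subgroup.normalClosure {f x})).relIndex (Subgroup.normalClosure {f x}) = p ^ D) :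
    2 ^ D ≤ Nat.card (Bl S (D * (L + 2 * D))) := by
  obtain ⟨Q, _, q, hq, hker, hc, hcomm, hexp⟩ := quot_facts f hf x D hD
  obtain ⟨E, W, hE, hEc, -, -, -⟩ := grow_aux (p := p) S hS (q.comp f) (hq.comp hf) x D L hx hc
    hcomm hexp D le_rfl
  have hfin : (Bl S (D * (L + 2 * D))).Finite := Helper56.RS.Bl_finite hSf _
  rw [Nat.card_coe_set_eq, ← hEc, ← Set.ncard_coe_finset]
  exact Set.ncard_le_ncard (fun e he => hE e he) hfin

end Pool.Agent.Helper75.LS
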