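import Pool.Agent.Helper75.LS.Defs

set_option autoImplicit false

open scoped Pointwise

namespace Pool.Agent.Helper75.LS

open Pool.Agent.Helper98.RS

variable {G : Type} [Group G]

theorem l12_small (γ C : ℝ) (hγ : γ < 1) :
    ∃ x0 : ℕ, ∀ x : ℝ, (x0 : ℝ) ≤ x → C * x ^ γ < x * Real.log 2 := by
  have hlog : 0 < Real.log 2 := Real.log_pos (by norm_num)
  have h1 : Filter.Tendsto (fun x : ℝ => C * x ^ (-(1 - γ))) Filter.atTop (nhds (C * 0)) :=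
    (tendsto_rpow_neg_atTop (by linarith : 0 < 1 - γ)).const_mul C
  rw [mul_zero] at h1
  have h2 := (h1.eventually (gt_mem_nhds hlog)).and (Filter.eventually_gt_atTop (0 : ℝ))
  obtain ⟨y, hy⟩ := Filter.eventually_atTop.mp h2
  refine ⟨⌈y⌉₊, fun x hx => ?_⟩
  obtain ⟨h3, h4⟩ := hy x ((Nat.le_ceil y).trans hx)
  have h5 : x ^ γ = x ^ (-(1 - γ)) * x := by
    rw [← Real.rpow_add_one h4.ne']
    congr 1
    ring
  rw [h5, ← mul_assoc, mul_comm x]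
  exact mul_lt_mul_of_pos_right h3 h4

/-- the growth bound with a positive exponent -/
theorem l12_bound (S : Set G) (α : ℝ) (hα : α < 1 / 4) (h : GB S α) :
    ∃ β : ℝ, 0 < β ∧ β < 1 / 4 ∧ ∃ n0 : ℕ, ∀ n : ℕ, n0 ≤ n →
      (Nat.card ↥(Bl S n) : ℝ) ≤ Real.exp ((n : ℝ) ^ β) := by
  obtain ⟨n0, hn0⟩ := h
  refine ⟨max α (1 / 8), lt_max_of_lt_right (by norm_num), max_lt hα (by norm_num), n0 + 1,
    fun n hn => (hn0 n (by omega)).trans ?_⟩
  refine Real.exp_le_exp.mpr (Real.rpow_le_rpow_of_exponent_le ?_ (le_max_left _ _))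
  exact_mod_cast (by omega : 1 ≤ n)

theorem num_D (S : Set G) (α : ℝ) (hα : α < 1 / 4) (h : GB S α) :
    ∃ D0 : ℕ, ∀ L D : ℕ, 2 ^ D ≤ Nat.card (Bl S (D * (L + 2 * D))) → D ≤ D0 ∨ D ^ 3 ≤ 8 * L := by
  obtain ⟨β, hβ0, hβ, n0, hn0⟩ := l12_bound S α hα h
  obtain ⟨x0, hx0⟩ := l12_small (4 * β) 1 (by linarith)
  refine ⟨x0 + n0 + 2, fun L D hD => ?_⟩
  by_contra hcon
  push Not at hcon
  obtain ⟨h1, h2⟩ := hcon
  have h3 : n0 ≤ D * (L + 2 * D) := by nlinarith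
  have h4 := hn0 _ h3
  have h5 : D * (L + 2 * D) ≤ D ^ 4 := by
    have h6 : 2 * D ^ 2 * 8 ≤ 7 * D ^ 4 := by nlinarith [Nat.mul_le_mul h1.le h1.le]
    have h7 : 8 * (D * L) ≤ D ^ 4 := by nlinarith
    nlinarith
  have h6 : ((2 : ℝ) ^ D) ≤ Real.exp (((D : ℝ) ^ 4) ^ β) := by
    have h7 : ((2 : ℝ) ^ D) ≤ (Nat.card ↥(Bl S (D * (L + 2 * D))) : ℝ) := by exact_mod_cast hD
    refine (h7.trans h4).trans (Real.exp_le_exp.mpr ?_)
    refine Real.rpow_le_rpow (Nat.cast_nonneg _) ?_ hβ0.le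
    exact_mod_cast h5
  have h7 : ((D : ℝ) ^ 4) ^ β = (D : ℝ) ^ (4 * β) := by
    rw [← Real.rpow_natCast, ← Real.rpow_mul (Nat.cast_nonneg _)]
    norm_num
  rw [h7, ← Real.log_le_iff_le_exp (by positivity), Real.log_pow] at h6
  have h8 := hx0 (D : ℝ) (by exact_mod_cast (by omega : x0 ≤ D))
  linarith

theorem num_j (S : Set G) (α : ℝ) (hα : α < 1 / 4) (h : GB S α) (c : ℕ) :
    ∃ j0 : ℕ, ∀ j : ℕ, j0 ≤ j → Nat.card (Bl S (2 ^ j * (4 ^ j * c))) < 2 ^ 2 ^ j := by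
  obtain ⟨β, hβ0, hβ, n0, hn0⟩ := l12_bound S α hα h
  obtain ⟨x0, hx0⟩ := l12_small (3 * β) ((c : ℝ) ^ β) (by linarith)
  rcases Nat.eq_zero_or_pos c with hc | hc
  · subst hc
    refine ⟨0, fun j _ => ?_⟩
    have h1 : Bl S (2 ^ j * (4 ^ j * 0)) = ({1} : Set G) := by
      unfold Bl
      rw [mul_zero, mul_zero, pow_zero]
      rfl
    rw [h1, Nat.card_unique]
    exact Nat.one_lt_two_pow (by positivity)
  · refine ⟨x0 + n0, fun j hj => ?_⟩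
    have hj1 : j < 2 ^ j := Nat.lt_two_pow_self
    have h3 : n0 ≤ 2 ^ j * (4 ^ j * c) := by
      have h4 : 1 ≤ 4 ^ j * c := Nat.succ_le_of_lt (by positivity)
      nlinarith
    have h4 := hn0 _ h3
    have h5 : (((2 ^ j * (4 ^ j * c) : ℕ) : ℝ)) ^ β = (c : ℝ) ^ β * ((2 : ℝ) ^ j) ^ (3 * β) := by
      have h6 : (((2 ^ j * (4 ^ j * c) : ℕ) : ℝ)) = (c : ℝ) * ((2 : ℝ) ^ j) ^ (3 : ℕ) := by
        push_cast
        rw [show (4 : ℝ) = 2 ^ 2 by norm_num, ← pow_mul, ← pow_mul, ← mul_assoc, ← pow_add,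
          mul_comm]
        congr 2
        ring
      rw [h6, Real.mul_rpow (Nat.cast_nonneg _) (by positivity), ← Real.rpow_natCast ((2 : ℝ) ^ j) 3,
        ← Real.rpow_mul (by positivity)]
      norm_num
    have h8 := hx0 ((2 : ℝ) ^ j) (by exact_mod_cast (by omega : x0 ≤ 2 ^ j))
    rw [h5] at h4
    have h9 : (Nat.card ↥(Bl S (2 ^ j * (4 ^ j * c))) : ℝ) < (2 : ℝ) ^ 2 ^ j := by
      refine h4.trans_lt ?_
      have h10 : (2 : ℝ) ^ 2 ^ j = Real.exp ((2 : ℝ) ^ j * Real.log 2) := by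
        rw [mul_comm, Real.exp_mul, Real.exp_log (by norm_num), ← Real.rpow_natCast 2 (2 ^ j)]
        push_cast
        rfl
      rw [h10]
      exact Real.exp_lt_exp.mpr h8
    exact_mod_cast h9

/-- Used for the lengths of `T_k`. -/
theorem num_len (D0 : ℕ) : ∃ C : ℕ, 1 ≤ C ∧ ∀ k D : ℕ, (D ≤ D0 ∨ D ^ 3 ≤ 8 * (C * 5 ^ k)) →
    8 * D ≤ C * 5 ^ k := by
  refine ⟨16 * D0 + 200, by omega, fun k D hD => ?_⟩
  have h1 : 16 * D0 + 200 ≤ (16 * D0 + 200) * 5 ^ k := Nat.le_mul_of_pos_right _ (by positivity)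
  generalize (16 * D0 + 200) * 5 ^ k = M at h1 hD ⊢
  rcases hD with h | h
  · omega
  · by_contra hcon
    push Not at hcon
    have h2 : D < 8 := by
      by_contra h8
      push Not at h8
      have h3 : 64 * D ≤ D ^ 3 := by
        calc 64 * D = 8 * 8 * D := by ring
          _ ≤ D * D * D := Nat.mul_le_mul_right _ (Nat.mul_le_mul h8 h8)
          _ = D ^ 3 := by ring
      omega
    omega

/-- Used for the choice of `k0`. -/
theorem num_k (D0 C : ℕ) : ∃ k : ℕ, ∀ D : ℕ, (D ≤ D0 ∨ D ^ 3 ≤ 8 * (C * 5 ^ (k + 1))) →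
    D ≤ 2 ^ k := by
  refine ⟨5 * (40 * C + D0), fun D hD => ?_⟩
  obtain ⟨m, hm⟩ : ∃ m, m = 40 * C + D0 := ⟨_, rfl⟩
  rw [← hm] at hD ⊢
  rcases hD with h | h
  · have h1 : 5 * m < 2 ^ (5 * m) := Nat.lt_two_pow_self
    omega
  · have h1 : m < 10 ^ m := Nat.lt_pow_self (by norm_num)
    have h2 : 10 ^ m * 5 ^ (5 * m) ≤ 8 ^ (5 * m) := by
      rw [pow_mul, pow_mul, ← Nat.mul_pow]
      exact Nat.pow_le_pow_left (by norm_num) m
    have h3 : 8 * (C * 5 ^ (5 * m + 1)) ≤ 8 ^ (5 * m) := by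
      refine le_trans ?_ h2
      have h4 : 8 * (C * 5 ^ (5 * m + 1)) = 40 * C * 5 ^ (5 * m) := by
        rw [pow_succ]
        ring
      rw [h4]
      exact Nat.mul_le_mul_right _ (by omega)
    have h4 : (8 : ℕ) ^ (5 * m) = (2 ^ (5 * m)) ^ 3 := by
      rw [show (8 : ℕ) = 2 ^ 3 by norm_num, ← pow_mul, ← pow_mul, mul_comm 3]
    rw [h4] at h3
    exact (Nat.pow_le_pow_iff_left (by norm_num)).mp (h.trans h3)

end Pool.Agent.Helper75.LS
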