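import Pool.Agent.Helper75.LS.L11
import Pool.Agent.Helper75.LS.L12

set_option autoImplicit false

open scoped Pointwise commutatorElement

namespace Pool.Agent.Helper75.LS

open Pool.Agent.Helper98.RS

variable {G : Type} [Group G]

private theorem l13_one_mem (S : Set G) (n : ℕ) : (1 : G) ∈ Bl S n := by
  unfold Bl
  induction n with
  | zero => simp
  | succ n ih =>
    rw [pow_succ]
    exact ⟨1, ih, 1, by simp, by simp⟩

private theorem l13_mul {S : Set G} {m n : ℕ} {a b : G} (ha : a ∈ Bl S m) (hb : b ∈ Bl S n) :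
    a * b ∈ Bl S (m + n) := by
  unfold Bl at *
  rw [pow_add]
  exact Set.mul_mem_mul ha hb

private theorem l13_mem_one {S : Set G} {s : G} (hs : s ∈ S) : s ∈ Bl S 1 := by
  unfold Bl; rw [pow_one]; exact Or.inl (Or.inr hs)

private theorem l13_inv {S : Set G} {n : ℕ} {a : G} (ha : a ∈ Bl S n) : a⁻¹ ∈ Bl S n := by
  unfold Bl at *
  induction n generalizing a with
  | zero => simpa using ha
  | succ n ih =>
    rw [pow_succ] at ha
    obtain ⟨b, hb, c, hc, rfl⟩ := ha
    rw [pow_succ']
    refine ⟨c⁻¹, ?_, b⁻¹, ih hb, by simp⟩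
    rcases hc with (hc | hc) | hc
    · left; left; simpa using hc
    · right; simpa using hc
    · left; right; exact hc

private theorem l13_mono {S : Set G} {m n : ℕ} (h : m ≤ n) : Bl S m ⊆ Bl S n := by
  intro a ha
  obtain ⟨k, rfl⟩ := Nat.exists_eq_add_of_le h
  simpa using l13_mul ha (l13_one_mem S k)

private theorem l13_fin {S : Set G} (hSf : S.Finite) (n : ℕ) : (Bl S n).Finite := by
  unfold Bl
  induction n with
  | zero => simp
  | succ n ih =>
    rw [pow_succ]
    exact ih.mul (((Set.finite_singleton 1).union hSf).union hSf.inv)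

/-- Uniform short normal generators of the derived subgroups of all finite `p`-quotients, all
primes `p`. -/
theorem tsets (S : Set G) (hSf : S.Finite) (hS : Subgroup.closure S = ⊤) (D0 C : ℕ)
    (h0 : ∀ L D : ℕ, 2 ^ D ≤ Nat.card (Bl S (D * (L + 2 * D))) → D ≤ D0 ∨ D ^ 3 ≤ 8 * L)
    (hC : 1 ≤ C)
    (h1 : ∀ k D : ℕ, (D ≤ D0 ∨ D ^ 3 ≤ 8 * (C * 5 ^ k)) → 8 * D ≤ C * 5 ^ k) (k : ℕ) :
    ∃ T : Set G, T.Finite ∧ T ⊆ Bl S (C * 5 ^ k) ∧
      ∀ (p : ℕ) [Fact p.Prime] (P : Type) [Group P] [Finite P] (f : G →* P),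
        Function.Surjective f → IsPGroup p P →
        derivedSeries P k = Subgroup.normalClosure (f '' T) := by
  induction k with
  | zero =>
    refine ⟨S, hSf, fun s hs => l13_mono (by simpa using hC) (l13_mem_one hs), ?_⟩
    intro p _ P _ _ f hf _
    rw [derivedSeries_zero]
    symm
    rw [eq_top_iff]
    have h2 : Subgroup.closure (f '' S) = ⊤ := by
      rw [← MonoidHom.map_closure, hS, ← MonoidHom.range_eq_map, MonoidHom.range_eq_top.2 hf]
    rw [← h2]
    exact Subgroup.closure_le_normalClosure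
  | succ k ih =>
    obtain ⟨T, hT, hTB, hTP⟩ := ih
    set l := C * 5 ^ k with hl
    refine ⟨(fun q : G × G × G => q.1⁻¹ * (q.2.2⁻¹ * q.2.1 * q.2.2)⁻¹ * q.1 *
      (q.2.2⁻¹ * q.2.1 * q.2.2)) '' (T ×ˢ T ×ˢ Bl S (l / 4)),
      (hT.prod (hT.prod (l13_fin hSf _))).image _, ?_, ?_⟩
    · rintro _ ⟨⟨s, t, u⟩, ⟨hs, ht, hu⟩, rfl⟩
      have e1 : u⁻¹ * t * u ∈ Bl S (l / 4 + l + l / 4) :=
        l13_mul (l13_mul (l13_inv hu) (hTB ht)) hu
      have e2 := l13_mul (l13_mul (l13_mul (l13_inv (hTB hs)) (l13_inv e1)) (hTB hs)) e1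
      refine l13_mono ?_ e2
      have : C * 5 ^ (k + 1) = 5 * l := by rw [hl, pow_succ]; ring
      rw [this]
      omega
    · intro p _ P _ _ f hf hP
      set T' : Set G := (fun q : G × G × G => q.1⁻¹ * (q.2.2⁻¹ * q.2.1 * q.2.2)⁻¹ * q.1 *
        (q.2.2⁻¹ * q.2.1 * q.2.2)) '' (T ×ˢ T ×ˢ Bl S (l / 4)) with hT'
      rw [derivedSeries_succ, hTP p P f hf hP]
      apply le_antisymm
      · -- the generators commute modulo the normal closure
        set M : Subgroup P := Subgroup.normalClosure (f '' T') with hM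
        let K : Set P := {y | ∃ t ∈ T, ∃ z ∈ Bl S (l / 8), y = f (z⁻¹ * t * z)}
        have hK : Subgroup.normalClosure (f '' T) ≤ Subgroup.closure K := by
          unfold Subgroup.normalClosure
          rw [Subgroup.closure_le]
          intro y hy
          rw [Group.mem_conjugatesOfSet_iff] at hy
          obtain ⟨_, ⟨t, ht, rfl⟩, hc⟩ := hy
          have h2 : y ∈ Subgroup.normalClosure {f t} := by
            apply Subgroup.subset_closure
            rw [Group.mem_conjugatesOfSet_iff]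
            exact ⟨f t, rfl, hc⟩
          obtain ⟨D, hD⟩ : ∃ D, (Ph p (Subgroup.normalClosure {f t})).relIndex
              (Subgroup.normalClosure {f t}) = p ^ D := by
            obtain ⟨n, hn⟩ := (hP.to_subgroup (Subgroup.normalClosure {f t})).exists_card_eq
            have h3 : (Ph p (Subgroup.normalClosure {f t})).relIndex
                (Subgroup.normalClosure {f t}) ∣ p ^ n := by
              rw [← hn]
              exact Subgroup.relIndex_dvd_card _ _
            obtain ⟨D, _, hD⟩ := (Nat.dvd_prime_pow Fact.out).1 h3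
            exact ⟨D, hD⟩
          have h4 := h0 l D (grow_count S hSf hS f hf hP t D l (hTB ht) hD)
          have h5 := h1 k D h4
          have h6 : D ≤ l / 8 := by omega
          rw [conj_gen S hS f hf hP t D hD] at h2
          refine Subgroup.closure_mono ?_ h2
          rintro _ ⟨z, hz, rfl⟩
          exact ⟨t, ht, z, l13_mono h6 hz, rfl⟩
        have hcomm : ∀ a ∈ QuotientGroup.mk' M '' K, ∀ b ∈ QuotientGroup.mk' M '' K,
            a * b = b * a := by
          rintro _ ⟨_, ⟨s, hs, z, hz, rfl⟩, rfl⟩ _ ⟨_, ⟨t, ht, w, hw, rfl⟩, rfl⟩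
          have hu : w * z⁻¹ ∈ Bl S (l / 4) :=
            l13_mono (by omega) (l13_mul hw (l13_inv hz))
          have h2 : f (s⁻¹ * ((w * z⁻¹)⁻¹ * t * (w * z⁻¹))⁻¹ * s *
              ((w * z⁻¹)⁻¹ * t * (w * z⁻¹))) ∈ M := by
            apply Subgroup.subset_normalClosure
            exact ⟨_, ⟨(s, t, w * z⁻¹), ⟨hs, ht, hu⟩, rfl⟩, rfl⟩
          have h3 : f (z⁻¹) * f (s⁻¹ * ((w * z⁻¹)⁻¹ * t * (w * z⁻¹))⁻¹ * s *
              ((w * z⁻¹)⁻¹ * t * (w * z⁻¹))) * (f (z⁻¹))⁻¹ ∈ M :=
            Subgroup.normalClosure_normal.conj_mem _ h2 _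
          have h4 : f (z⁻¹) * f (s⁻¹ * ((w * z⁻¹)⁻¹ * t * (w * z⁻¹))⁻¹ * s *
              ((w * z⁻¹)⁻¹ * t * (w * z⁻¹))) * (f (z⁻¹))⁻¹ =
              (f (w⁻¹ * t * w) * f (z⁻¹ * s * z))⁻¹ * (f (z⁻¹ * s * z) * f (w⁻¹ * t * w)) := by
            simp only [map_mul, map_inv]
            group
          rw [h4] at h3
          have h7 : QuotientGroup.mk' M (f (w⁻¹ * t * w) * f (z⁻¹ * s * z)) =
              QuotientGroup.mk' M (f (z⁻¹ * s * z) * f (w⁻¹ * t * w)) := QuotientGroup.eq.2 h3
          exact h7.symm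
        have hcc : IsMulCommutative (Subgroup.closure (QuotientGroup.mk' M '' K)) :=
          Subgroup.isMulCommutative_closure hcomm
        rw [Subgroup.commutator_le]
        intro x hx y hy
        have hx' : QuotientGroup.mk' M x ∈ Subgroup.closure (QuotientGroup.mk' M '' K) := by
          rw [← MonoidHom.map_closure]
          exact ⟨x, hK hx, rfl⟩
        have hy' : QuotientGroup.mk' M y ∈ Subgroup.closure (QuotientGroup.mk' M '' K) := by
          rw [← MonoidHom.map_closure]
          exact ⟨y, hK hy, rfl⟩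
        have h5 : QuotientGroup.mk' M x * QuotientGroup.mk' M y =
            QuotientGroup.mk' M y * QuotientGroup.mk' M x :=
          setLike_mul_comm (S := Subgroup (P ⧸ M))
            (s := Subgroup.closure (QuotientGroup.mk' M '' K)) hx' hy'
        have h6 : QuotientGroup.mk' M ⁅x, y⁆ = 1 := by
          rw [commutatorElement_def, map_mul, map_mul, map_mul, map_inv, map_inv, h5]
          group
        exact (QuotientGroup.eq_one_iff _).1 h6
      · apply Subgroup.normalClosure_le_normal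
        rintro _ ⟨_, ⟨⟨s, t, u⟩, ⟨hs, ht, hu⟩, rfl⟩, rfl⟩
        have h2 : f s ∈ Subgroup.normalClosure (f '' T) :=
          Subgroup.subset_normalClosure ⟨s, hs, rfl⟩
        have h3 : f t ∈ Subgroup.normalClosure (f '' T) :=
          Subgroup.subset_normalClosure ⟨t, ht, rfl⟩
        have h4 : f (u⁻¹ * t * u) ∈ Subgroup.normalClosure (f '' T) := by
          have := Subgroup.normalClosure_normal.conj_mem _ h3 (f u)⁻¹
          simpa [map_mul, map_inv, mul_assoc] using this
        have h5 := Subgroup.commutator_mem_commutator (inv_mem h2) (inv_mem h4)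
        have h6 : f (s⁻¹ * (u⁻¹ * t * u)⁻¹ * s * (u⁻¹ * t * u)) =
            ⁅(f s)⁻¹, (f (u⁻¹ * t * u))⁻¹⁆ := by
          rw [commutatorElement_def]
          simp only [map_mul, map_inv, inv_inv]
        show f (s⁻¹ * (u⁻¹ * t * u)⁻¹ * s * (u⁻¹ * t * u)) ∈ _
        rw [h6]
        exact h5

end Pool.Agent.Helper75.LS
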