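import Pool.Agent.Helper75.LS.Defs

set_option autoImplicit false

namespace Pool.Agent.Helper75.LS

variable {Γ : Type} [Group Γ]

private def l14D (H : Subgroup Γ) : ℕ → Subgroup Γ
  | 0 => H
  | n + 1 => ⁅l14D H n, l14D H n⁆

private theorem l14D_eq (H : Subgroup Γ) (n : ℕ) :
    l14D H n = (derivedSeries H n).map H.subtype := by
  induction n with
  | zero =>
    rw [derivedSeries_zero, ← MonoidHom.range_eq_map, Subgroup.range_subtype]
    rfl
  | succ n ih =>
    rw [derivedSeries_succ, Subgroup.map_commutator, ← ih]
    rfl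

private theorem l14D_top (n : ℕ) : l14D (⊤ : Subgroup Γ) n = derivedSeries Γ n := by
  induction n with
  | zero => rfl
  | succ n ih =>
    rw [derivedSeries_succ, ← ih]
    rfl

private theorem l14D_bot_iff (H : Subgroup Γ) (n : ℕ) :
    l14D H n = ⊥ ↔ derivedSeries H n = ⊥ := by
  rw [l14D_eq, Subgroup.map_eq_bot_iff_of_injective _ H.subtype_injective]

private theorem l14D_add (H : Subgroup Γ) (i j : ℕ) : l14D H (i + j) = l14D (l14D H i) j := by
  induction j with
  | zero => rfl
  | succ j ih =>
    change ⁅l14D H (i + j), l14D H (i + j)⁆ = ⁅l14D (l14D H i) j, l14D (l14D H i) j⁆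
    rw [ih]

private theorem l14D_mono {H K : Subgroup Γ} (h : H ≤ K) (n : ℕ) : l14D H n ≤ l14D K n := by
  induction n with
  | zero => exact h
  | succ n ih => exact Subgroup.commutator_mono ih ih

private theorem l14D_sup (K H : Subgroup Γ) (hK : K.Normal) (n : ℕ) :
    l14D (K ⊔ H) n ≤ K ⊔ l14D H n := by
  induction n with
  | zero => exact le_rfl
  | succ n ih =>
    refine (Subgroup.commutator_mono ih ih).trans ?_
    have h1 : ∀ A : Subgroup Γ, (K ⊔ A).map (QuotientGroup.mk' K) = A.map (QuotientGroup.mk' K) := by
      intro A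
      rw [Subgroup.map_sup]
      have : K.map (QuotientGroup.mk' K) = ⊥ := by
        rw [Subgroup.map_eq_bot_iff, QuotientGroup.ker_mk']
      rw [this, bot_sup_eq]
    have h2 : (⁅K ⊔ l14D H n, K ⊔ l14D H n⁆ : Subgroup Γ).map (QuotientGroup.mk' K) =
        (⁅l14D H n, l14D H n⁆ : Subgroup Γ).map (QuotientGroup.mk' K) := by
      rw [Subgroup.map_commutator, Subgroup.map_commutator, h1]
    have h3 := Subgroup.le_comap_map (QuotientGroup.mk' K) (⁅K ⊔ l14D H n, K ⊔ l14D H n⁆)
    rw [h2, Subgroup.comap_map_eq, QuotientGroup.ker_mk'] at h3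
    exact h3.trans (sup_comm _ _).le

/-- The normal closure of a finite set, each of whose elements has a normal closure of derived
length at most `j`, has derived length at most `|T| * j`. -/
theorem dl_normalClosure (T : Set Γ) (hT : T.Finite) (j : ℕ)
    (h : ∀ t ∈ T, derivedSeries (Subgroup.normalClosure ({t} : Set Γ)) j = ⊥) :
    derivedSeries (Subgroup.normalClosure T) (T.ncard * j) = ⊥ := by
  rw [← l14D_bot_iff]
  induction T, hT using Set.Finite.induction_on with
  | empty =>
    rw [Set.ncard_empty, Nat.zero_mul]
    exact Subgroup.normalClosure_empty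
  | @insert t T ht hT ih =>
    rw [Set.ncard_insert_of_notMem ht hT, Nat.succ_mul, l14D_add]
    have h1 : Subgroup.normalClosure (insert t T) =
        Subgroup.normalClosure {t} ⊔ Subgroup.normalClosure T := by
      refine le_antisymm (Subgroup.normalClosure_le_normal ?_) (sup_le ?_ ?_)
      · intro x hx
        rcases hx with rfl | hx
        · exact (le_sup_left : _ ≤ Subgroup.normalClosure {x} ⊔ Subgroup.normalClosure T)
            (Subgroup.subset_normalClosure rfl)
        · exact (le_sup_right : _ ≤ Subgroup.normalClosure {t} ⊔ Subgroup.normalClosure T)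
            (Subgroup.subset_normalClosure hx)
      · exact Subgroup.normalClosure_mono (Set.singleton_subset_iff.2 (Set.mem_insert t T))
      · exact Subgroup.normalClosure_mono (Set.subset_insert t T)
    have h2 : l14D (Subgroup.normalClosure (insert t T)) (T.ncard * j) ≤
        Subgroup.normalClosure {t} := by
      rw [h1]
      refine (l14D_sup _ _ inferInstance _).trans ?_
      rw [ih fun s hs => h s (Set.mem_insert_of_mem t hs), sup_bot_eq]
    refine le_bot_iff.1 ((l14D_mono h2 j).trans ?_)
    rw [(l14D_bot_iff _ _).2 (h t (Set.mem_insert t T))]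

/-- Derived series of the whole group from that of a term. -/
theorem dl_add (i j : ℕ) (H : Subgroup Γ) (hH : derivedSeries Γ i = H)
    (h : derivedSeries H j = ⊥) : derivedSeries Γ (i + j) = ⊥ := by
  rw [← l14D_top, l14D_add, l14D_top, hH, l14D_bot_iff]
  exact h

end Pool.Agent.Helper75.LS
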