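import Pool.Agent.Helper75.LS.L7
import Pool.Agent.Helper75.LS.L10
import Pool.Agent.Helper75.LS.L13
import Pool.Agent.Helper75.LS.L14

set_option autoImplicit false

open scoped Pointwise

namespace Pool.Agent.Helper75.LS

open Pool.Agent.Helper98.RS

variable {G : Type} [Group G]

namespace L15

theorem one_mem_base (S : Set G) : (1 : G) ∈ ({1} : Set G) ∪ S ∪ S⁻¹ :=
  Or.inl (Or.inl rfl)

theorem bl_mono (S : Set G) {m n : ℕ} (h : m ≤ n) : Bl S m ⊆ Bl S n :=
  Set.pow_subset_pow_right (one_mem_base S) h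

theorem bl_mul (S : Set G) {m n : ℕ} {x y : G} (hx : x ∈ Bl S m) (hy : y ∈ Bl S n) :
    x * y ∈ Bl S (m + n) := by
  unfold Bl
  rw [pow_add]
  exact Set.mul_mem_mul hx hy

theorem base_inv (S : Set G) : (({1} : Set G) ∪ S ∪ S⁻¹)⁻¹ = ({1} : Set G) ∪ S ∪ S⁻¹ := by
  ext x
  simp only [Set.mem_inv, Set.mem_union, Set.mem_singleton_iff, inv_eq_one, inv_inv]
  tauto

theorem bl_inv (S : Set G) {n : ℕ} {x : G} (hx : x ∈ Bl S n) : x⁻¹ ∈ Bl S n := by
  have h : (Bl S n)⁻¹ = Bl S n := by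
    unfold Bl
    rw [← inv_pow, base_inv]
  rw [← h]
  simpa using hx

theorem bl_fin (S : Set G) (hS : S.Finite) (n : ℕ) : (Bl S n).Finite := by
  have hb : (({1} : Set G) ∪ S ∪ S⁻¹).Finite := ((Set.finite_singleton 1).union hS).union hS.inv
  unfold Bl
  induction n with
  | zero => rw [pow_zero]; exact Set.finite_singleton 1
  | succ n ih => rw [pow_succ]; exact ih.mul hb

theorem filt (S : Set G) (hS : S.Finite) {P : Type} [Group P] (f : G →* P) (N : Subgroup P) :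
    Filt (Γ := N) (fun n => {x : N | (x : P) ∈ f '' Bl S n}) where
  one := ⟨1, by simp [Bl], by simp⟩
  mono := by
    intro m n h x hx
    exact Set.image_mono (bl_mono S h) hx
  mul := by
    rintro m n x y ⟨a, ha, hax⟩ ⟨b, hb, hby⟩
    exact ⟨a * b, bl_mul S ha hb, by simp [hax, hby]⟩
  inv := by
    rintro n x ⟨a, ha, hax⟩
    exact ⟨a⁻¹, bl_inv S ha, by simp [hax]⟩
  fin := by
    intro n
    exact Set.Finite.preimage (Subtype.val_injective.injOn) ((bl_fin S hS n).image f)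

theorem pe_top {P : Type} [Group P] (n p : ℕ) (N : Subgroup P) (h : ⁅N, N⁆ ≤ Pw n N)
    (hn : n = qq p) : PE p (⊤ : Subgroup N) := by
  subst hn
  refine ⟨inferInstance, ?_⟩
  have key : Subgroup.map N.subtype ⁅(⊤ : Subgroup N), (⊤ : Subgroup N)⁆ ≤
      Subgroup.map N.subtype (Pw (qq p) (⊤ : Subgroup N)) := by
    rw [Subgroup.map_commutator, ← MonoidHom.range_eq_map, Subgroup.range_subtype]
    refine h.trans ?_
    unfold Pw
    rw [MonoidHom.map_closure]
    apply Subgroup.closure_mono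
    rintro _ ⟨a, ha, rfl⟩
    exact ⟨(⟨a, ha⟩ : N) ^ qq p, ⟨⟨a, ha⟩, Subgroup.mem_top _, rfl⟩, by simp⟩
  exact (Subgroup.map_le_map_iff_of_injective N.subtype_injective).1 key

theorem one_t (S : Set G) (hSf : S.Finite) (hS : Subgroup.closure S = ⊤) (p : ℕ)
    [Fact p.Prime] (L k j : ℕ)
    (hD : ∀ D : ℕ, 2 ^ D ≤ Nat.card (Bl S (D * (L + 2 * D))) → D ≤ 2 ^ k)
    (hj : Nat.card (Bl S (2 ^ j * (4 ^ j * (p * (L + 2 * 2 ^ k))))) < 2 ^ 2 ^ j)
    (P : Type) [Group P] [Finite P] (f : G →* P) (hf : Function.Surjective f)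
    (hP : IsPGroup p P) (t : G) (ht : t ∈ Bl S L)
    (htk : f t ∈ derivedSeries P (k + 1)) :
    derivedSeries (Subgroup.normalClosure ({f t} : Set P)) (j + 1) = ⊥ := by
  set N := Subgroup.normalClosure ({f t} : Set P) with hN
  -- the number of generators
  obtain ⟨D, hDN⟩ : ∃ D : ℕ, (Ph p N).relIndex N = p ^ D := by
    have h1 : (Ph p N).relIndex N ∣ Nat.card N := by
      unfold Subgroup.relIndex
      exact Subgroup.index_dvd_card _
    have h2 : Nat.card N ∣ Nat.card P := Subgroup.card_subgroup_dvd_card N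
    obtain ⟨n, hn⟩ := (IsPGroup.iff_card).1 hP
    have h3 : (Ph p N).relIndex N ∣ p ^ n := hn ▸ h1.trans h2
    obtain ⟨D, -, hD⟩ := (Nat.dvd_prime_pow (Fact.out : p.Prime)).1 h3
    exact ⟨D, hD⟩
  have hDk : D ≤ 2 ^ k := hD D (grow_count S hSf hS f hf hP t D L ht hDN)
  have hNk : N ≤ derivedSeries P (k + 1) := by
    rw [hN]
    exact Subgroup.normalClosure_le_normal (Set.singleton_subset_iff.2 htk)
  have hpow : ⁅N, N⁆ ≤ Pw (qq p) N := by
    refine powerful_of hP N (hN ▸ Subgroup.normalClosure_normal) k hNk ?_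
    rw [hDN]
    exact Nat.pow_le_pow_right (Fact.out : p.Prime).pos hDk
  have hPE : PE p (⊤ : Subgroup N) := pe_top (qq p) p N hpow rfl
  have hPN : IsPGroup p N := hP.to_subgroup N
  have hF := filt S hSf f N
  have hSh : Sh (fun n => {x : N | (x : P) ∈ f '' Bl S n}) (⊤ : Subgroup N)
      (L + 2 * 2 ^ k) := by
    intro y _
    have hg := conj_gen S hS f hf hP t D hDN
    rw [← hN] at hg
    have hy : (y : P) ∈ Subgroup.closure {y | ∃ z ∈ Bl S D, y = f (z⁻¹ * t * z)} := by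
      rw [← hg]; exact y.2
    have hsub : ({y | ∃ z ∈ Bl S D, y = f (z⁻¹ * t * z)} : Set P) ⊆
        N.subtype '' (((⊤ : Subgroup N) : Set N) ∩
          {x : N | (x : P) ∈ f '' Bl S (L + 2 * 2 ^ k)}) := by
      rintro w ⟨z, hz, rfl⟩
      have hw : f (z⁻¹ * t * z) ∈ N := by
        rw [hg]
        exact Subgroup.subset_closure ⟨z, hz, rfl⟩
      refine ⟨⟨_, hw⟩, ⟨by simp, ?_⟩, rfl⟩
      refine ⟨z⁻¹ * t * z, ?_, rfl⟩
      have h1 : z⁻¹ * t * z ∈ Bl S (D + L + D) := bl_mul S (bl_mul S (bl_inv S hz) ht) hz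
      exact bl_mono S (by omega) h1
    have hy2 := Subgroup.closure_mono hsub hy
    rw [← MonoidHom.map_closure] at hy2
    obtain ⟨y', hy', e⟩ := hy2
    have : y' = y := Subtype.ext e
    rw [← this]
    exact hy'
  by_contra hne
  have htree := tree hPN hF hPE (L + 2 * 2 ^ k) hSh j hne
  have hcard : Nat.card ({x : N | (x : P) ∈ f '' Bl S (2 ^ j * (4 ^ j * (p * (L + 2 * 2 ^ k))))} :
      Set N) ≤ Nat.card (Bl S (2 ^ j * (4 ^ j * (p * (L + 2 * 2 ^ k))))) := by
    have hfin := bl_fin S hSf (2 ^ j * (4 ^ j * (p * (L + 2 * 2 ^ k))))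
    have h1 : Nat.card (f '' Bl S (2 ^ j * (4 ^ j * (p * (L + 2 * 2 ^ k))))) ≤
        Nat.card (Bl S (2 ^ j * (4 ^ j * (p * (L + 2 * 2 ^ k))))) := by
      rw [Nat.card_coe_set_eq, Nat.card_coe_set_eq]
      exact Set.ncard_image_le hfin
    refine le_trans ?_ h1
    have : Finite (f '' Bl S (2 ^ j * (4 ^ j * (p * (L + 2 * 2 ^ k))))) := (hfin.image f).to_subtype
    refine Nat.card_le_card_of_injective (fun x => ⟨(x.1 : P), x.2⟩) ?_
    intro a b hab
    have := congrArg Subtype.val hab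
    exact Subtype.ext (Subtype.ext this)
  exact absurd (htree.trans hcard) (not_le.2 hj)

end L15

/-- Fixed prime: bounded derived length of all finite `p`-quotients. -/
theorem fixed_p (S : Set G) (hSf : S.Finite) (hS : Subgroup.closure S = ⊤) (α : ℝ)
    (hα : α < 1 / 4) (h : GB S α) (p : ℕ) [Fact p.Prime] :
    ∃ m : ℕ, ∀ (P : Type) [Group P] [Finite P] (f : G →* P), Function.Surjective f →
      IsPGroup p P → derivedSeries P m = ⊥ := by
  obtain ⟨D0, h0⟩ := num_D S α hα h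
  obtain ⟨C, hC, h1⟩ := num_len D0
  obtain ⟨k, hk⟩ := num_k D0 C
  obtain ⟨T, hTf, hTB, hT⟩ := tsets S hSf hS D0 C h0 hC h1 (k + 1)
  obtain ⟨j, hj⟩ := num_j S α hα h (p * (C * 5 ^ (k + 1) + 2 * 2 ^ k))
  refine ⟨(k + 1) + T.ncard * (j + 1), ?_⟩
  intro P _ _ f hf hP
  have hTP := hT p P f hf hP
  have hone : ∀ t ∈ f '' T, derivedSeries (Subgroup.normalClosure ({t} : Set P)) (j + 1) = ⊥ := by
    rintro _ ⟨t, ht, rfl⟩
    refine L15.one_t S hSf hS p (C * 5 ^ (k + 1)) k j ?_ (hj j le_rfl) P f hf hP t (hTB ht) ?_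
    · intro D hD
      exact hk D (h0 _ D hD)
    · rw [hTP]
      exact Subgroup.subset_normalClosure ⟨t, ht, rfl⟩
  have hnc := dl_normalClosure (f '' T) (hTf.image f) (j + 1) hone
  have hadd := dl_add (k + 1) _ _ hTP hnc
  have hle : (f '' T).ncard * (j + 1) ≤ T.ncard * (j + 1) :=
    Nat.mul_le_mul_right _ (Set.ncard_image_le hTf)
  exact le_bot_iff.1 (hadd ▸ derivedSeries_antitone P (Nat.add_le_add_left hle _))

end Pool.Agent.Helper75.LS
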