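import Pool.Agent.Helper75.LS.Defs

set_option autoImplicit false

namespace Pool.Agent.Helper75.LS

variable {Δ : Type} [Group Δ]

/-- A central element of infinite order of a finitely generated nilpotent group survives in a
finite `p`-quotient. -/
theorem nil_surv (hfg : Group.FG Δ) (hn : Group.IsNilpotent Δ) (p : ℕ) [Fact p.Prime] (z : Δ)
    (hz : z ∈ Subgroup.center Δ) (hinf : ∀ n : ℕ, 0 < n → z ^ n ≠ 1) :
    ∃ (P : Type) (_ : Group P) (_ : Finite P) (f : Δ →* P), Function.Surjective f ∧
      IsPGroup p P ∧ f z ≠ 1 := sorry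

end Pool.Agent.Helper75.LS
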