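import Pool.Agent.Helper75.LS.Defs

set_option autoImplicit false

namespace Pool.Agent.Helper75.LS

variable {G : Type} [Group G]

/-- Lower central factors of a virtually nilpotent group have finite exponent from some point. -/
theorem vn_expo (h : VN G) : ∃ n e : ℕ, 0 < e ∧ ∀ x ∈ Lc G n,
    x ^ e ∈ Lc G (n + 1) := sorry

/-- Lower central factors of a finitely generated group are finitely generated. -/
theorem lcs_fg (hfg : Group.FG G) (n : ℕ) : ∃ X : Set G, X.Finite ∧
    X ⊆ Lc G n ∧
    Lc G n ≤ Subgroup.closure X ⊔ Lc G (n + 1) := sorry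

end Pool.Agent.Helper75.LS
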