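import Pool.Agent.Helper75.LS.L16
import Pool.Agent.Helper75.LS.L17

set_option autoImplicit false

namespace Pool.Agent.Helper75.LS

variable {G : Type} [Group G]

/-- One prime is enough to make some lower central factor of finite exponent. -/
theorem expo (hfg : Group.FG G) (p : ℕ) [Fact p.Prime] (m : ℕ)
    (hm : ∀ (P : Type) [Group P] [Finite P] (f : G →* P), Function.Surjective f →
      IsPGroup p P → derivedSeries P m = ⊥)
    (hvn : VN (G ⧸ derivedSeries G m)) :
    ∃ n E : ℕ, 0 < E ∧ ∀ x ∈ Lc G n,
      x ^ E ∈ Lc G (n + 1) := sorry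

end Pool.Agent.Helper75.LS
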