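import Pool.Agent.Helper75.LS.Defs

set_option autoImplicit false

namespace Pool.Agent.Helper75.LS

variable {G : Type} [Group G]

/-- Assembly over all primes. -/
theorem solv (hres : ∀ g : G, g ≠ 1 → ∃ (N : Subgroup G) (_ : N.Normal), N.FiniteIndex ∧ g ∉ N ∧
      Group.IsNilpotent (G ⧸ N))
    (hp : ∀ (p : ℕ) [Fact p.Prime], ∃ m : ℕ, ∀ (P : Type) [Group P] [Finite P] (f : G →* P),
      Function.Surjective f → IsPGroup p P → derivedSeries P m = ⊥)
    (n E : ℕ) (hE : 0 < E) (h : ∀ x ∈ Lc G n,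
      x ^ E ∈ Lc G (n + 1)) :
    ∃ m : ℕ, derivedSeries G m = ⊥ := sorry

end Pool.Agent.Helper75.LS
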