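import Pool.Agent.Helper75.LS.L15
import Pool.Agent.Helper41.LS.AllP
import Pool.Agent.Helper98.RS.C1
import Pool.Agent.Helper98.RS.C2

set_option autoImplicit false

open scoped Pointwise

namespace Pool.Agent.Helper75.LS

open Pool.Agent.Helper98.RS

private theorem l20_pq {G : Type} [Group G] (m p : ℕ) (hm : ∀ (P : Type) [Group P] [Finite P]
    (f : G →* P), Function.Surjective f → IsPGroup p P → derivedSeries P m = ⊥)
    (N : Subgroup G) (hN : N.Normal) (hF : N.FiniteIndex) (hp : ∀ g : G, ∃ k, g ^ p ^ k ∈ N) :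
    derivedSeries G m ≤ N := by
  have hfin : Finite (G ⧸ N) := inferInstance
  have hP : IsPGroup p (G ⧸ N) := by
    intro g
    obtain ⟨u, rfl⟩ := QuotientGroup.mk_surjective g
    obtain ⟨k, hk⟩ := hp u
    exact ⟨k, (QuotientGroup.eq_one_iff _).2 hk⟩
  have h1 := hm (G ⧸ N) (QuotientGroup.mk' N) (QuotientGroup.mk'_surjective N) hP
  rw [← map_derivedSeries_eq (QuotientGroup.mk'_surjective N), Subgroup.map_eq_bot_iff,
    QuotientGroup.ker_mk'] at h1
  exact h1

/-- Residually nilpotent groups of growth at most `exp (n ^ α)`, `α < 1/4`, are virtually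
nilpotent. -/
theorem last {G : Type} [Group G] (S : Set G) (hSf : S.Finite) (hS : Subgroup.closure S = ⊤)
    (α : ℝ) (hα : α < 1 / 4) (h : GB S α)
    (hres : ∀ g : G, g ≠ 1 → ∃ (N : Subgroup G) (_ : N.Normal), N.FiniteIndex ∧ g ∉ N ∧
      Group.IsNilpotent (G ⧸ N)) : VN G := by
  classical
  have hfg : Group.FG G := (Group.fg_iff).2 ⟨S, hS, hSf⟩
  have hsub : SubExp' G := subexp_of_gb S hSf hS α (hα.trans (by norm_num)) h
  have hex : ∀ p : ℕ, ∃ m : ℕ, p.Prime → ∀ N : Subgroup G, N.Normal → N.FiniteIndex →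
      (∀ g : G, ∃ k, g ^ p ^ k ∈ N) → derivedSeries G m ≤ N := by
    intro p
    by_cases hp : p.Prime
    · have : Fact p.Prime := ⟨hp⟩
      obtain ⟨m, hm⟩ := fixed_p S hSf hS α hα h p
      exact ⟨m, fun _ N hN hF hNp => l20_pq m p hm N hN hF hNp⟩
    · exact ⟨0, fun h' => absurd h' hp⟩
  choose m hm using hex
  obtain ⟨k, hk⟩ := Pool.Agent.Helper41.LS.all_primes hfg hsub m hm
  have hbot : derivedSeries G k = ⊥ := by
    rw [eq_bot_iff]
    intro g hg
    by_contra hg1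
    obtain ⟨N, hN, hF, hgN, hNil⟩ := hres g (fun h1 => hg1 (h1 ▸ Subgroup.one_mem _))
    exact hgN (hk N hN hF hNil hg)
  exact milnor_wolf hfg ⟨⟨k, hbot⟩⟩ hsub

end Pool.Agent.Helper75.LS
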