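import Pool.Agent.Helper75.LS.L2

set_option autoImplicit false

open scoped commutatorElement

namespace Pool.Agent.Helper75.LS

/-- `[a^n, b] = [a, [a, b]]^(n choose 2) [a, b]^n` if `[a, [a, b]]` is central. -/
theorem l3_comm_pow_formula {H : Type} [Group H] (a b : H)
    (hd : ∀ g : H, Commute ⁅a, ⁅a, b⁆⁆ g) (n : ℕ) :
    ⁅a ^ n, b⁆ = ⁅a, ⁅a, b⁆⁆ ^ (n.choose 2) * ⁅a, b⁆ ^ n := by
  induction n with
  | zero => simp
  | succ n ih =>
    set c : H := ⁅a, b⁆ with hc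
    set d : H := ⁅a, c⁆ with hdd
    have h1 : ⁅a ^ (n + 1), b⁆ = a * ⁅a ^ n, b⁆ * a⁻¹ * c := by
      rw [hc, pow_succ']
      simp only [commutatorElement_def]
      group
    have h2 : a * c * a⁻¹ = d * c := by
      rw [hdd]
      simp only [commutatorElement_def]
      group
    have h3 : a * d ^ (n.choose 2) = d ^ (n.choose 2) * a := ((hd a).pow_left _).symm.eq
    have h4 : (a * c * a⁻¹) ^ n = a * c ^ n * a⁻¹ := by
      rw [conj_pow]
    rw [h1, ih, Nat.choose_succ_left n 2 (by norm_num)]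
    calc a * (d ^ (n.choose 2) * c ^ n) * a⁻¹ * c
        = (a * d ^ (n.choose 2)) * c ^ n * a⁻¹ * c := by group
      _ = d ^ (n.choose 2) * (a * c ^ n * a⁻¹) * c := by rw [h3]; group
      _ = d ^ (n.choose 2) * (d * c) ^ n * c := by rw [← h4, h2]
      _ = d ^ (n.choose 2) * (d ^ n * c ^ n) * c := by rw [(hd c).mul_pow]
      _ = _ := by
        simp only [Nat.choose_one_right, show (2 - 1 : ℕ) = 1 from rfl]
        rw [pow_succ c n, pow_add]
        have h5 : d ^ n * d ^ (n.choose 2) = d ^ (n.choose 2) * d ^ n := by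
          rw [← pow_add, ← pow_add, add_comm]
        rw [h5]
        group

theorem l3_dvd_choose (p : ℕ) (hp : p.Prime) : p ∣ (qq p).choose 2 := by
  unfold qq
  split_ifs with h
  · subst h; decide
  · exact hp.dvd_choose_self (by norm_num) (lt_of_le_of_ne hp.two_le (Ne.symm h))

variable {Γ : Type} [Group Γ] [Finite Γ] {p : ℕ} [Fact p.Prime]

omit [Finite Γ] in
/-- `[A^q, B] ≤ Y` if modulo `Y` the commutators of elements of `[A, B]` are central of order `p`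
and the elements of `[A, B]` have order dividing `q`. -/
theorem l3_half (A B Y : Subgroup Γ) (hYn : Y.Normal)
    (h1 : ∀ c ∈ ⁅A, B⁆, c ^ (qq p) ∈ Y)
    (h2 : ∀ c ∈ ⁅A, B⁆, ∀ g : Γ, ⁅g, c⁆ ^ p ∈ Y)
    (h3 : ∀ c ∈ ⁅A, B⁆, ∀ g k : Γ, ⁅⁅g, c⁆, k⁆ ∈ Y) :
    ⁅Pw (qq p) A, B⁆ ≤ Y := by
  have hp : p.Prime := Fact.out
  rw [Subgroup.commutator_le]
  intro x hx y hy
  have key : ∀ a ∈ A, ⁅a ^ (qq p), y⁆ ∈ Y := by
    intro a ha
    have hc : ⁅a, y⁆ ∈ ⁅A, B⁆ := Subgroup.commutator_mem_commutator ha hy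
    rw [← QuotientGroup.eq_one_iff]
    have hmap : ((⁅a ^ (qq p), y⁆ : Γ) : Γ ⧸ Y) = ⁅(a : Γ ⧸ Y) ^ (qq p), (y : Γ ⧸ Y)⁆ := by
      simp only [commutatorElement_def, QuotientGroup.mk_mul, QuotientGroup.mk_inv,
        QuotientGroup.mk_pow]
    have hc1 : ((⁅a, y⁆ : Γ) : Γ ⧸ Y) = ⁅(a : Γ ⧸ Y), (y : Γ ⧸ Y)⁆ := by
      simp only [commutatorElement_def, QuotientGroup.mk_mul, QuotientGroup.mk_inv]
    have hd1 : ((⁅a, ⁅a, y⁆⁆ : Γ) : Γ ⧸ Y) = ⁅(a : Γ ⧸ Y), ⁅(a : Γ ⧸ Y), (y : Γ ⧸ Y)⁆⁆ := by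
      simp only [commutatorElement_def, QuotientGroup.mk_mul, QuotientGroup.mk_inv]
    rw [hmap, l3_comm_pow_formula]
    · obtain ⟨m, hm⟩ := l3_dvd_choose p hp
      have g1 : ((⁅a, ⁅a, y⁆⁆ : Γ) : Γ ⧸ Y) ^ p = 1 := by
        rw [← QuotientGroup.mk_pow]
        exact (QuotientGroup.eq_one_iff _).mpr (h2 _ hc a)
      have g2 : ((⁅a, y⁆ : Γ) : Γ ⧸ Y) ^ (qq p) = 1 := by
        rw [← QuotientGroup.mk_pow]
        exact (QuotientGroup.eq_one_iff _).mpr (h1 _ hc)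
      rw [hm, pow_mul, ← hd1, ← hc1, g1, g2]
      simp
    · intro g
      obtain ⟨k, rfl⟩ := QuotientGroup.mk_surjective g
      rw [← hd1]
      have h4 := (QuotientGroup.eq_one_iff (N := Y) _).mpr (h3 _ hc a k)
      rw [← commutatorElement_eq_one_iff_commute]
      rw [← h4]
      simp only [commutatorElement_def, QuotientGroup.mk_mul, QuotientGroup.mk_inv]
  have hle : Pw (qq p) A ≤ (Subgroup.centralizer {(y : Γ ⧸ Y)}).comap (QuotientGroup.mk' Y) := by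
    unfold Pw
    rw [Subgroup.closure_le]
    rintro _ ⟨a, ha, rfl⟩
    have h5 := key a ha
    rw [← QuotientGroup.eq_one_iff] at h5
    simp only [Subgroup.coe_comap, Set.mem_preimage, SetLike.mem_coe,
      Subgroup.mem_centralizer_iff, Set.mem_singleton_iff, forall_eq, QuotientGroup.mk'_apply]
    have h6 : ⁅((a ^ (qq p) : Γ) : Γ ⧸ Y), (y : Γ ⧸ Y)⁆ = 1 := by
      rw [← h5]
      simp only [commutatorElement_def, QuotientGroup.mk_mul, QuotientGroup.mk_inv]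
    exact (commutatorElement_eq_one_iff_mul_comm.mp h6).symm
  have h7 := hle hx
  simp only [Subgroup.mem_comap, Subgroup.mem_centralizer_iff, Set.mem_singleton_iff, forall_eq,
    QuotientGroup.mk'_apply] at h7
  rw [← QuotientGroup.eq_one_iff]
  have h8 : ⁅(x : Γ ⧸ Y), (y : Γ ⧸ Y)⁆ = 1 := commutatorElement_eq_one_iff_mul_comm.mpr h7.symm
  rw [← h8]
  simp only [commutatorElement_def, QuotientGroup.mk_mul, QuotientGroup.mk_inv]

omit [Finite Γ] in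
/-- Three subgroups lemma modulo a normal subgroup. -/
theorem l3_three (A B C Y : Subgroup Γ) (hYn : Y.Normal) (h1 : ⁅⁅B, C⁆, A⁆ ≤ Y)
    (h2 : ⁅⁅C, A⁆, B⁆ ≤ Y) : ⁅⁅A, B⁆, C⁆ ≤ Y := by
  have hk : ∀ S : Subgroup Γ, S ≤ Y ↔ S.map (QuotientGroup.mk' Y) = ⊥ := by
    intro S
    rw [(Subgroup.map_eq_bot_iff S), QuotientGroup.ker_mk']
  rw [hk, Subgroup.map_commutator, Subgroup.map_commutator]
  apply Subgroup.commutator_commutator_eq_bot_of_rotate
  · rw [← Subgroup.map_commutator, ← Subgroup.map_commutator, ← hk]; exact h1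
  · rw [← Subgroup.map_commutator, ← Subgroup.map_commutator, ← hk]; exact h2

/-- Commutators of powerfully embedded subgroups are powerfully embedded. -/
theorem pe_comm (hΓ : IsPGroup p Γ) (A B : Subgroup Γ) (hA : PE p A) (hB : PE p B) :
    PE p ⁅A, B⁆ := by
  obtain ⟨hAn, hA⟩ := hA
  obtain ⟨hBn, hB⟩ := hB
  have := hAn
  have := hBn
  have hCn : (⁅A, B⁆ : Subgroup Γ).Normal := inferInstance
  refine ⟨hCn, ?_⟩
  set C : Subgroup Γ := ⁅A, B⁆ with hC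
  have hXn : (⁅C, (⊤ : Subgroup Γ)⁆).Normal := inferInstance
  set X : Subgroup Γ := ⁅C, (⊤ : Subgroup Γ)⁆ with hX
  have hN0 : (Pw (qq p) C).Normal := pw_normal (qq p) C hCn
  have hPX : (Pw p X).Normal := pw_normal p X hXn
  have hXX : (⁅X, (⊤ : Subgroup Γ)⁆).Normal := inferInstance
  have hYn : (Pw (qq p) C ⊔ Pw p X ⊔ ⁅X, (⊤ : Subgroup Γ)⁆).Normal := inferInstance
  have hNP : (Pw (qq p) C ⊔ Pw p X).Normal := inferInstance
  set Y : Subgroup Γ := Pw (qq p) C ⊔ Pw p X ⊔ ⁅X, (⊤ : Subgroup Γ)⁆ with hY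
  have e1 : ∀ c ∈ C, c ^ (qq p) ∈ Y := fun c hc =>
    (le_trans le_sup_left le_sup_left : Pw (qq p) C ≤ Y) (Subgroup.subset_closure ⟨c, hc, rfl⟩)
  have e0 : ∀ c ∈ C, ∀ g : Γ, ⁅g, c⁆ ∈ X := by
    intro c hc g
    have : ⁅g, c⁆ ∈ (⁅(⊤ : Subgroup Γ), C⁆ : Subgroup Γ) :=
      Subgroup.commutator_mem_commutator (Subgroup.mem_top g) hc
    rwa [Subgroup.commutator_comm] at this
  have e2 : ∀ c ∈ C, ∀ g : Γ, ⁅g, c⁆ ^ p ∈ Y := fun c hc g =>
    (le_trans le_sup_right le_sup_left : Pw p X ≤ Y) (Subgroup.subset_closure ⟨_, e0 c hc g, rfl⟩)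
  have e3 : ∀ c ∈ C, ∀ g k : Γ, ⁅⁅g, c⁆, k⁆ ∈ Y := fun c hc g k =>
    (le_sup_right : ⁅X, (⊤ : Subgroup Γ)⁆ ≤ Y)
      (Subgroup.commutator_mem_commutator (e0 c hc g) (Subgroup.mem_top k))
  have f1 : ⁅Pw (qq p) A, B⁆ ≤ Y := l3_half (p := p) A B Y hYn e1 e2 e3
  have f2 : ⁅Pw (qq p) B, A⁆ ≤ Y := by
    have hBA : (⁅B, A⁆ : Subgroup Γ) = C := Subgroup.commutator_comm B A
    refine l3_half (p := p) B A Y hYn ?_ ?_ ?_
    · rw [hBA]; exact e1
    · rw [hBA]; exact e2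
    · rw [hBA]; exact e3
  have main : X ≤ Y := by
    rw [hX, hC]
    refine l3_three A B ⊤ Y hYn ?_ ?_
    · exact le_trans (Subgroup.commutator_mono hB le_rfl) f2
    · rw [Subgroup.commutator_comm (⊤ : Subgroup Γ) A]
      exact le_trans (Subgroup.commutator_mono hA le_rfl) f1
  have h1 : X ≤ Pw (qq p) C ⊔ Pw p X := le_of_le_sup_comm hΓ X _ hXn hNP main
  have h2 : X ⊔ Pw (qq p) C ≤ Pw (qq p) C := by
    refine le_of_le_sup_ph (p := p) hΓ (X ⊔ Pw (qq p) C) (Pw (qq p) C) le_sup_right ?_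
    refine sup_le (le_trans h1 (sup_le_sup le_rfl ?_)) le_sup_left
    exact le_trans (pw_mono le_sup_left) le_sup_left
  exact le_trans le_sup_left h2

end Pool.Agent.Helper75.LS
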