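import Pool.Agent.Helper75.LS.L3

set_option autoImplicit false

namespace Pool.Agent.Helper75.LS

variable {Γ : Type} [Group Γ] [Finite Γ] {p : ℕ} [Fact p.Prime]

/-- `a, b` with central commutator and `a ^ 4 = 1`: the squares commute. -/
private theorem l4_comm {Q : Type} [Group Q] (a b : Q) (hc : ∀ z : Q, (a * b * a⁻¹ * b⁻¹) * z =
    z * (a * b * a⁻¹ * b⁻¹)) (ha : a ^ 4 = 1) : Commute (a ^ 2) (b ^ 2) := by
  set c : Q := a * b * a⁻¹ * b⁻¹ with hcdef
  have h1 : a * b = c * (b * a) := by rw [hcdef]; group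
  have h2 : a ^ 2 * b = c ^ 2 * (b * a ^ 2) := by
    calc a ^ 2 * b = a * (a * b) := by rw [pow_two, mul_assoc]
      _ = a * c * (b * a) := by rw [h1, ← mul_assoc]
      _ = c * a * (b * a) := by rw [hc a]
      _ = c * ((a * b) * a) := by simp only [mul_assoc]
      _ = c * ((c * (b * a)) * a) := by rw [h1]
      _ = c ^ 2 * (b * a ^ 2) := by simp only [pow_two, mul_assoc]
  have hc2 : ∀ z : Q, c ^ 2 * z = z * c ^ 2 := by
    intro z
    rw [pow_two, mul_assoc, hc z, ← mul_assoc, hc z, mul_assoc]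
  have h4 : a ^ 4 * b = c ^ 4 * (b * a ^ 4) := by
    calc a ^ 4 * b = a ^ 2 * (a ^ 2 * b) := by rw [← mul_assoc, ← pow_add]
      _ = a ^ 2 * c ^ 2 * (b * a ^ 2) := by rw [h2, ← mul_assoc]
      _ = c ^ 2 * a ^ 2 * (b * a ^ 2) := by rw [hc2 (a ^ 2)]
      _ = c ^ 2 * ((a ^ 2 * b) * a ^ 2) := by simp only [mul_assoc]
      _ = c ^ 2 * ((c ^ 2 * (b * a ^ 2)) * a ^ 2) := by rw [h2]
      _ = (c ^ 2 * c ^ 2) * (b * (a ^ 2 * a ^ 2)) := by simp only [mul_assoc]
      _ = c ^ 4 * (b * a ^ 4) := by rw [← pow_add, ← pow_add]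
  have hc4 : c ^ 4 = 1 := by
    rw [ha, one_mul, mul_one] at h4
    exact mul_eq_right.1 h4.symm
  show a ^ 2 * b ^ 2 = b ^ 2 * a ^ 2
  calc a ^ 2 * b ^ 2 = (a ^ 2 * b) * b := by rw [pow_two b, mul_assoc]
    _ = (c ^ 2 * (b * a ^ 2)) * b := by rw [h2]
    _ = c ^ 2 * (b * (a ^ 2 * b)) := by simp only [mul_assoc]
    _ = c ^ 2 * (b * (c ^ 2 * (b * a ^ 2))) := by rw [h2]
    _ = c ^ 2 * ((b * c ^ 2) * (b * a ^ 2)) := by simp only [mul_assoc]
    _ = c ^ 2 * ((c ^ 2 * b) * (b * a ^ 2)) := by rw [hc2 b]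
    _ = (c ^ 2 * c ^ 2) * (b ^ 2 * a ^ 2) := by simp only [pow_two b, mul_assoc]
    _ = b ^ 2 * a ^ 2 := by rw [← pow_add, hc4, one_mul]

/-- In a group, a set of pairwise commuting involutions generates a group of exponent two. -/
private theorem l4_sq {Q : Type} [Group Q] (S : Set Q) (hS : ∀ x ∈ S, ∀ y ∈ S, Commute x y)
    (h2 : ∀ x ∈ S, x ^ 2 = 1) (x : Q) (hx : x ∈ Subgroup.closure S) : x ^ 2 = 1 := by
  have h1 : Subgroup.closure S ≤ Subgroup.centralizer S := by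
    rw [Subgroup.closure_le]
    intro y hy
    rw [SetLike.mem_coe, Subgroup.mem_centralizer_iff]
    intro z hz
    exact hS z hz y hy
  have h3 : Subgroup.closure S ≤ Subgroup.centralizer (Subgroup.closure S : Set Q) := by
    rw [Subgroup.closure_le]
    intro y hy
    rw [SetLike.mem_coe, Subgroup.mem_centralizer_iff]
    intro z hz
    exact ((Subgroup.mem_centralizer_iff.1 (h1 hz)) y hy).symm
  induction hx using Subgroup.closure_induction with
  | mem y hy => exact h2 y hy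
  | one => exact one_pow 2
  | mul y z hy hz ihy ihz =>
    have hyz : Commute y z := (Subgroup.mem_centralizer_iff.1 (h3 hz)) y hy
    rw [hyz.mul_pow, ihy, ihz, one_mul]
  | inv y hy ih => rw [inv_pow, ih, inv_one]

/-- The subgroup of `p`-th powers of a powerful group is powerfully embedded. -/
theorem pe_pow (hΓ : IsPGroup p Γ) (h : PE p (⊤ : Subgroup Γ)) :
    PE p (Pw p (⊤ : Subgroup Γ)) := by
  have hU : (Pw p (⊤ : Subgroup Γ)).Normal := pw_normal p ⊤ inferInstance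
  refine ⟨hU, ?_⟩
  have hC : PE p ⁅(⊤ : Subgroup Γ), (⊤ : Subgroup Γ)⁆ := pe_comm hΓ ⊤ ⊤ h h
  have hX : ⁅Pw p (⊤ : Subgroup Γ), (⊤ : Subgroup Γ)⁆ ≤ Pw p ⁅(⊤ : Subgroup Γ), (⊤ : Subgroup Γ)⁆ :=
    comm_pow p ⊤ ⊤ inferInstance inferInstance hC
  by_cases hp2 : p = 2
  · subst hp2
    have hqq : qq 2 = 4 := by simp [qq]
    rw [hqq]
    have hC4 : ⁅(⊤ : Subgroup Γ), (⊤ : Subgroup Γ)⁆ ≤ Pw 4 (⊤ : Subgroup Γ) := by
      have := h.2; rwa [hqq] at this
    set U : Subgroup Γ := Pw 2 (⊤ : Subgroup Γ) with hUdef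
    set X : Subgroup Γ := ⁅U, (⊤ : Subgroup Γ)⁆ with hXdef
    have hXn : X.Normal := Subgroup.commutator_normal U ⊤
    have hYn : (Pw 4 U).Normal := pw_normal 4 U hU
    refine le_of_le_sup_comm hΓ X (Pw 4 U) hXn hYn ?_
    set Z : Subgroup Γ := Pw 4 U ⊔ ⁅X, (⊤ : Subgroup Γ)⁆ with hZdef
    have hXT : (⁅X, (⊤ : Subgroup Γ)⁆).Normal := Subgroup.commutator_normal X ⊤
    have hZn : Z.Normal := Subgroup.sup_normal _ _
    have hC2U : ⁅(⊤ : Subgroup Γ), (⊤ : Subgroup Γ)⁆ ≤ Pw 2 U := by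
      refine hC4.trans ?_
      rw [Pw, Subgroup.closure_le]
      rintro _ ⟨a, -, rfl⟩
      have ha : a ^ 2 ∈ U := Subgroup.subset_closure ⟨a, Subgroup.mem_top a, rfl⟩
      have : a ^ 4 = (a ^ 2) ^ 2 := by rw [← pow_mul]
      rw [this]
      exact Subgroup.subset_closure ⟨a ^ 2, ha, rfl⟩
    -- squares of elements of `Pw 2 U` lie in `Z`
    have hsq : ∀ x ∈ Pw 2 U, x ^ 2 ∈ Z := by
      intro x hx
      let S : Set (Γ ⧸ Z) := {y | ∃ u ∈ U, y = (QuotientGroup.mk u : Γ ⧸ Z) ^ 2}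
      have h4 : ∀ u ∈ U, (QuotientGroup.mk u : Γ ⧸ Z) ^ 4 = 1 := by
        intro u hu
        rw [← QuotientGroup.mk_pow, QuotientGroup.eq_one_iff]
        exact (le_sup_left : Pw 4 U ≤ Z) (Subgroup.subset_closure ⟨u, hu, rfl⟩)
      have hcomm : ∀ x ∈ S, ∀ y ∈ S, Commute x y := by
        rintro _ ⟨u, hu, rfl⟩ _ ⟨v, hv, rfl⟩
        refine l4_comm _ _ ?_ (h4 u hu)
        intro z
        obtain ⟨z, rfl⟩ := QuotientGroup.mk_surjective z
        have hc : u * v * u⁻¹ * v⁻¹ ∈ X := by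
          have := Subgroup.commutator_mem_commutator hu (Subgroup.mem_top v)
          rwa [commutatorElement_def] at this
        have hz := Subgroup.commutator_mem_commutator hc (Subgroup.mem_top z)
        rw [commutatorElement_def] at hz
        have h5 : (QuotientGroup.mk ((u * v * u⁻¹ * v⁻¹) * z * (u * v * u⁻¹ * v⁻¹)⁻¹ * z⁻¹) :
            Γ ⧸ Z) = 1 := (QuotientGroup.eq_one_iff _).2 ((le_sup_right : _ ≤ Z) hz)
        simp only [QuotientGroup.mk_mul, QuotientGroup.mk_inv] at h5 ⊢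
        rw [mul_inv_eq_one, mul_inv_eq_iff_eq_mul] at h5
        exact h5
      have h2 : ∀ x ∈ S, x ^ 2 = 1 := by
        rintro _ ⟨u, hu, rfl⟩
        rw [← pow_mul]
        exact h4 u hu
      have hxS : (QuotientGroup.mk x : Γ ⧸ Z) ∈ Subgroup.closure S := by
        have : Pw 2 U ≤ (Subgroup.closure S).comap (QuotientGroup.mk' Z) := by
          rw [Pw, Subgroup.closure_le]
          rintro _ ⟨u, hu, rfl⟩
          exact Subgroup.subset_closure ⟨u, hu, by simp⟩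
        exact this hx
      have := l4_sq S hcomm h2 _ hxS
      rwa [← QuotientGroup.mk_pow, QuotientGroup.eq_one_iff] at this
    refine hX.trans ?_
    rw [Pw, Subgroup.closure_le]
    rintro _ ⟨c, hc, rfl⟩
    exact hsq c (hC2U hc)
  · have hqq : qq p = p := if_neg hp2
    rw [hqq]
    exact hX.trans (pw_mono (h.2.trans (pw_qq_le p ⊤)))

end Pool.Agent.Helper75.LS
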