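import Pool.Agent.Helper75.LS.L4

set_option autoImplicit false

namespace Pool.Agent.Helper75.LS

open scoped commutatorElement

variable {Γ : Type} [Group Γ] [Finite Γ] {p : ℕ} [Fact p.Prime]

omit [Finite Γ] in
private theorem L5_normal (C Z : Subgroup Γ) (hZC : Z ≤ C) (h : ⁅C, (⊤ : Subgroup Γ)⁆ ≤ Z) :
    Z.Normal := by
  refine ⟨fun z hz g => ?_⟩
  have h1 : ⁅g, z⁆ ∈ Z := by
    apply h
    rw [Subgroup.commutator_comm]
    exact Subgroup.commutator_mem_commutator (Subgroup.mem_top g) (hZC hz)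
  have h2 : g * z * g⁻¹ = ⁅g, z⁆ * z := by
    rw [commutatorElement_def]
    group
  rw [h2]
  exact Z.mul_mem h1 hz

omit [Finite Γ] in
private theorem L5_ph_le (C : Subgroup Γ) : Ph p C ≤ C := by
  refine sup_le (pw_le p C) ?_
  rw [Subgroup.commutator_le]
  intro a ha b hb
  rw [commutatorElement_def]
  exact C.mul_mem (C.mul_mem (C.mul_mem ha hb) (C.inv_mem ha)) (C.inv_mem hb)

omit [Finite Γ] in
private theorem L5_comm_iff (Z : Subgroup Γ) [Z.Normal] (a b : Γ) :
    ⁅a, b⁆ ∈ Z ↔ (a : Γ ⧸ Z) * (b : Γ ⧸ Z) = (b : Γ ⧸ Z) * (a : Γ ⧸ Z) := by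
  rw [← commutatorElement_eq_one_iff_mul_comm, commutatorElement_def, commutatorElement_def,
    ← QuotientGroup.eq_one_iff]
  rfl

/-- Commutators of subgroups generated by short elements. -/
theorem sh_comm (hΓ : IsPGroup p Γ) {B : ℕ → Set Γ} (hB : Filt B) (A A' : Subgroup Γ)
    (hA : A.Normal) (hA' : A'.Normal) (h : PE p ⁅A, A'⁆) (l : ℕ) (h1 : Sh B A l)
    (h2 : Sh B A' l) : Sh B ⁅A, A'⁆ (4 * l) := by
  set C : Subgroup Γ := ⁅A, A'⁆ with hC
  set Y : Subgroup Γ := Subgroup.closure ((C : Set Γ) ∩ B (4 * l)) with hY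
  have hYC : Y ≤ C := by
    rw [hY, Subgroup.closure_le]
    exact Set.inter_subset_left
  have hZC : Y ⊔ Ph p C ≤ C := sup_le hYC (L5_ph_le C)
  have hCt : ⁅C, (⊤ : Subgroup Γ)⁆ ≤ Y ⊔ Ph p C :=
    h.2.trans ((pw_qq_le p C).trans (le_sup_left.trans le_sup_right))
  haveI hZn : (Y ⊔ Ph p C).Normal := L5_normal C _ hZC hCt
  set Z : Subgroup Γ := Y ⊔ Ph p C with hZ
  -- generators commute modulo `Z`
  have hgen : ∀ a ∈ (A : Set Γ) ∩ B l, ∀ b ∈ (A' : Set Γ) ∩ B l, ⁅a, b⁆ ∈ Z := by
    rintro a ⟨ha, haB⟩ b ⟨hb, hbB⟩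
    have h3 : Y ≤ Z := le_sup_left
    apply h3
    refine Subgroup.subset_closure ⟨Subgroup.commutator_mem_commutator ha hb, ?_⟩
    rw [commutatorElement_def]
    have h4 := hB.mul _ _ _ _ (hB.mul _ _ _ _ (hB.mul _ _ _ _ haB hbB) (hB.inv _ _ haB))
      (hB.inv _ _ hbB)
    rwa [show l + l + l + l = 4 * l by ring] at h4
  let Hc : Γ → Subgroup Γ := fun b =>
    (Subgroup.centralizer {(b : Γ ⧸ Z)}).comap (QuotientGroup.mk' Z)
  have hHc : ∀ a b : Γ, a ∈ Hc b ↔ (b : Γ ⧸ Z) * (a : Γ ⧸ Z) = (a : Γ ⧸ Z) * (b : Γ ⧸ Z) := by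
    intro a b
    show QuotientGroup.mk' Z a ∈ Subgroup.centralizer {(b : Γ ⧸ Z)} ↔ _
    rw [Subgroup.mem_centralizer_iff]
    constructor
    · intro h3
      exact h3 _ rfl
    · rintro h3 _ rfl
      exact h3
  have hs1 : ∀ b ∈ (A' : Set Γ) ∩ B l, A ≤ Hc b := by
    intro b hb
    refine le_trans h1 ?_
    rw [Subgroup.closure_le]
    intro a ha
    exact (hHc a b).2 ((L5_comm_iff Z a b).1 (hgen a ha b hb)).symm
  have hs2 : ∀ a ∈ A, A' ≤ Hc a := by
    intro a ha
    refine le_trans h2 ?_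
    rw [Subgroup.closure_le]
    intro b hb
    exact (hHc b a).2 ((hHc a b).1 (hs1 b hb ha)).symm
  have hCZ : C ≤ Y ⊔ Ph p C := by
    show C ≤ Z
    rw [hC, Subgroup.commutator_le]
    intro a ha b hb
    exact (L5_comm_iff Z a b).2 ((hHc b a).1 (hs2 a ha hb))
  exact le_of_le_sup_ph hΓ C Y hYC hCZ

/-- `p`-th powers in a powerful group generated by short elements. -/
theorem sh_pow (hΓ : IsPGroup p Γ) {B : ℕ → Set Γ} (hB : Filt B) (h : PE p (⊤ : Subgroup Γ))
    (l : ℕ) (h1 : Sh B (⊤ : Subgroup Γ) l) : Sh B (Pw p (⊤ : Subgroup Γ)) (p * l) := by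
  set U : Subgroup Γ := Pw p (⊤ : Subgroup Γ) with hU
  have hPU : PE p U := pe_pow hΓ h
  set Y : Subgroup Γ := Subgroup.closure ((U : Set Γ) ∩ B (p * l)) with hY
  have hYU : Y ≤ U := by
    rw [hY, Subgroup.closure_le]
    exact Set.inter_subset_left
  have hZU : Y ⊔ Ph p U ≤ U := sup_le hYU (L5_ph_le U)
  have hUt : ⁅U, (⊤ : Subgroup Γ)⁆ ≤ Y ⊔ Ph p U :=
    hPU.2.trans ((pw_qq_le p U).trans (le_sup_left.trans le_sup_right))
  haveI hZn : (Y ⊔ Ph p U).Normal := L5_normal U _ hZU hUt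
  set Z : Subgroup Γ := Y ⊔ Ph p U with hZ
  have hPZ : Pw p U ≤ Z := le_sup_left.trans le_sup_right
  have hcU : ∀ x y : Γ, ⁅x, y⁆ ∈ Pw (qq p) (⊤ : Subgroup Γ) := fun x y =>
    h.2 (Subgroup.commutator_mem_commutator (Subgroup.mem_top x) (Subgroup.mem_top y))
  have hcp : ∀ x y : Γ, ((x : Γ ⧸ Z) * (y : Γ ⧸ Z)) ^ p = (x : Γ ⧸ Z) ^ p * (y : Γ ⧸ Z) ^ p := by
    intro x y
    by_cases hp2 : p = 2
    · have h3 : ⁅x, y⁆ ∈ Z := by
        apply hPZ
        have h4 := hcU x y
        have h5 : Pw (qq p) (⊤ : Subgroup Γ) ≤ Pw p U := by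
          rw [Pw, Subgroup.closure_le]
          rintro _ ⟨a, -, rfl⟩
          have ha : a ^ p ∈ U := Subgroup.subset_closure ⟨a, Subgroup.mem_top a, rfl⟩
          have h6 : a ^ qq p = (a ^ p) ^ p := by
            rw [← pow_mul, qq, if_pos hp2, hp2]
          rw [h6]
          exact Subgroup.subset_closure ⟨a ^ p, ha, rfl⟩
        exact h5 h4
      have hc : Commute (x : Γ ⧸ Z) (y : Γ ⧸ Z) := (L5_comm_iff Z x y).1 h3
      exact hc.mul_pow p
    · have h3 : ⁅y⁻¹, x⁻¹⁆ ∈ U := by
        have h4 := hcU y⁻¹ x⁻¹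
        rw [qq, if_neg hp2] at h4
        exact h4
      set c : Γ ⧸ Z := ((⁅y⁻¹, x⁻¹⁆ : Γ) : Γ ⧸ Z) with hc
      have hcc : ∀ z : Γ ⧸ Z, Commute c z := by
        intro z
        obtain ⟨w, rfl⟩ := QuotientGroup.mk_surjective z
        exact (L5_comm_iff Z _ w).1 (hUt (Subgroup.commutator_mem_commutator h3 (Subgroup.mem_top w)))
      have hcpow : c ^ p = 1 := by
        have : ⁅y⁻¹, x⁻¹⁆ ^ p ∈ Z := hPZ (Subgroup.subset_closure ⟨_, h3, rfl⟩)
        exact (QuotientGroup.eq_one_iff _).2 this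
      have hyx : (y : Γ ⧸ Z) * (x : Γ ⧸ Z) = (x : Γ ⧸ Z) * (y : Γ ⧸ Z) * c := by
        rw [hc, ← QuotientGroup.mk_mul, ← QuotientGroup.mk_mul, ← QuotientGroup.mk_mul]
        congr 1
        rw [commutatorElement_def]
        group
      set X : Γ ⧸ Z := (x : Γ ⧸ Z) with hX
      set V : Γ ⧸ Z := (y : Γ ⧸ Z) with hV
      have h5 : ∀ n : ℕ, V * X ^ n = X ^ n * V * c ^ n := by
        intro n
        induction n with
        | zero => simp
        | succ n ih =>
          have e1 : c ^ n * X = X * c ^ n := ((hcc X).pow_left n).eq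
          calc V * X ^ (n + 1) = (V * X ^ n) * X := by rw [pow_succ, mul_assoc]
            _ = X ^ n * V * c ^ n * X := by rw [ih]
            _ = X ^ n * V * (X * c ^ n) := by rw [mul_assoc (X ^ n * V), e1]
            _ = X ^ n * (V * X) * c ^ n := by simp only [mul_assoc]
            _ = X ^ n * (X * V * c) * c ^ n := by rw [hyx]
            _ = X ^ (n + 1) * V * c ^ (n + 1) := by
              rw [pow_succ, pow_succ' c]
              simp only [mul_assoc]
      have h6 : ∀ n : ℕ, (X * V) ^ n = X ^ n * V ^ n * c ^ (n.choose 2) := by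
        intro n
        induction n with
        | zero => simp
        | succ n ih =>
          have e1 : ∀ z : Γ ⧸ Z, c ^ (n.choose 2) * z = z * c ^ (n.choose 2) :=
            fun z => ((hcc z).pow_left _).eq
          have e2 : V ^ n * X = X * V ^ n * c ^ n := by
            have h7 : ∀ k : ℕ, V ^ k * X = X * V ^ k * c ^ k := by
              intro k
              induction k with
              | zero => simp
              | succ k ihk =>
                calc V ^ (k + 1) * X = V ^ k * (V * X) := by rw [pow_succ, mul_assoc]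
                  _ = V ^ k * (X * V * c) := by rw [hyx]
                  _ = (V ^ k * X) * V * c := by simp only [mul_assoc]
                  _ = X * V ^ k * c ^ k * V * c := by rw [ihk]
                  _ = X * V ^ k * (c ^ k * V) * c := by simp only [mul_assoc]
                  _ = X * V ^ k * (V * c ^ k) * c := by rw [((hcc V).pow_left k).eq]
                  _ = X * V ^ (k + 1) * c ^ (k + 1) := by
                    rw [pow_succ, pow_succ]
                    simp only [mul_assoc]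
            exact h7 n
          calc (X * V) ^ (n + 1) = (X * V) ^ n * (X * V) := pow_succ _ _
            _ = X ^ n * V ^ n * c ^ (n.choose 2) * (X * V) := by rw [ih]
            _ = X ^ n * V ^ n * ((X * V) * c ^ (n.choose 2)) := by
              rw [mul_assoc (X ^ n * V ^ n), e1]
            _ = X ^ n * (V ^ n * X) * V * c ^ (n.choose 2) := by simp only [mul_assoc]
            _ = X ^ n * (X * V ^ n * c ^ n) * V * c ^ (n.choose 2) := by rw [e2]
            _ = X ^ n * X * V ^ n * (c ^ n * V) * c ^ (n.choose 2) := by simp only [mul_assoc]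
            _ = X ^ n * X * V ^ n * (V * c ^ n) * c ^ (n.choose 2) := by
              rw [((hcc V).pow_left n).eq]
            _ = X ^ (n + 1) * V ^ (n + 1) * (c ^ n * c ^ (n.choose 2)) := by
              rw [pow_succ X, pow_succ V]
              simp only [mul_assoc]
            _ = X ^ (n + 1) * V ^ (n + 1) * c ^ ((n + 1).choose 2) := by
              rw [← pow_add]
              congr 2
              rw [Nat.choose_succ_succ, Nat.choose_one_right]
      have h8 : c ^ (p.choose 2) = 1 := by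
        have hpp : p.Prime := Fact.out
        have hdv : p ∣ p.choose 2 := hpp.dvd_choose_self (by norm_num) (by
          have := hpp.two_le
          omega)
        obtain ⟨k, hk⟩ := hdv
        rw [hk, pow_mul, hcpow, one_pow]
      rw [h6 p, h8, mul_one]
  have hpow : ∀ x ∈ B l, ∀ n : ℕ, x ^ n ∈ B (n * l) := by
    intro x hx n
    induction n with
    | zero =>
      rw [pow_zero, zero_mul]
      exact hB.one
    | succ n ih =>
      rw [pow_succ, Nat.succ_mul]
      exact hB.mul _ _ _ _ ih hx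
  have hmem : ∀ x : Γ, x ^ p ∈ Z ↔ (x : Γ ⧸ Z) ^ p = 1 := fun x => by
    rw [← QuotientGroup.eq_one_iff]
    rfl
  let W : Subgroup Γ :=
    { carrier := {x | x ^ p ∈ Z}
      one_mem' := by
        show (1 : Γ) ^ p ∈ Z
        rw [one_pow]
        exact Z.one_mem
      mul_mem' := by
        intro x y hx hy
        have hx' : x ^ p ∈ Z := hx
        have hy' : y ^ p ∈ Z := hy
        show (x * y) ^ p ∈ Z
        rw [hmem] at hx' hy' ⊢
        rw [QuotientGroup.mk_mul, hcp x y, hx', hy', one_mul]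
      inv_mem' := by
        intro x hx
        have hx' : x ^ p ∈ Z := hx
        show x⁻¹ ^ p ∈ Z
        rw [inv_pow]
        exact Z.inv_mem hx' }
  have hW : (⊤ : Subgroup Γ) ≤ W := by
    refine le_trans h1 ?_
    rw [Subgroup.closure_le]
    rintro x ⟨-, hx⟩
    show x ^ p ∈ Z
    have h3 : Y ≤ Z := le_sup_left
    apply h3
    refine Subgroup.subset_closure ⟨?_, hpow x hx p⟩
    exact Subgroup.subset_closure ⟨x, Subgroup.mem_top x, rfl⟩
  have hUZ : U ≤ Y ⊔ Ph p U := by
    show U ≤ Z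
    rw [hU, Pw, Subgroup.closure_le]
    rintro _ ⟨a, -, rfl⟩
    exact hW (Subgroup.mem_top a)
  exact le_of_le_sup_ph hΓ U Y hYU hUZ

end Pool.Agent.Helper75.LS
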