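import Pool.Agent.Helper75.LS.Defs

set_option autoImplicit false

namespace Pool.Agent.Helper75.LS

variable {Γ : Type} [Group Γ]

/-- Counting along a strictly decreasing chain of subgroups with short elements outside the next
term. -/
theorem count_chain {B : ℕ → Set Γ} (hB : Filt B) (H : ℕ → Subgroup Γ) (x : ℕ → Γ) (l m : ℕ)
    (hH : ∀ i, i < m → H (i + 1) ≤ H i) (hx : ∀ i, i < m → x i ∈ H i)
    (hx' : ∀ i, i < m → x i ∉ H (i + 1)) (hl : ∀ i, i < m → x i ∈ B l) :
    2 ^ m ≤ Nat.card (B (m * l)) := by
  classical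
  have key : ∀ j, j ≤ m →
      ∃ S : Finset Γ, S.card = 2 ^ j ∧ ∀ y ∈ S, y ∈ H (m - j) ∧ y ∈ B (j * l) := by
    intro j
    induction j with
    | zero =>
      intro _
      refine ⟨{1}, by simp, ?_⟩
      intro y hy
      rw [Finset.mem_singleton] at hy
      subst hy
      rw [Nat.zero_mul]
      exact ⟨one_mem _, hB.one⟩
    | succ j ih =>
      intro hj
      obtain ⟨S, hc, hS⟩ := ih (by omega)
      obtain ⟨i, hi⟩ : ∃ i, i = m - (j + 1) := ⟨_, rfl⟩
      have him : i < m := by omega
      have hi1 : m - j = i + 1 := by omega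
      rw [← hi]
      rw [hi1] at hS
      refine ⟨S ∪ S.image (x i * ·), ?_, ?_⟩
      · have hd : Disjoint S (S.image (x i * ·)) := by
          rw [Finset.disjoint_left]
          intro y hy hy'
          obtain ⟨z, hz, rfl⟩ := Finset.mem_image.mp hy'
          apply hx' i him
          have := mul_mem (hS _ hy).1 (inv_mem (hS _ hz).1)
          simpa using this
        rw [Finset.card_union_of_disjoint hd,
          Finset.card_image_of_injective _ (mul_right_injective _), hc, pow_succ]
        ring
      · intro y hy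
        rcases Finset.mem_union.mp hy with hy | hy
        · exact ⟨hH i him (hS y hy).1,
            hB.mono _ _ (Nat.mul_le_mul_right l (Nat.le_succ j)) (hS y hy).2⟩
        · obtain ⟨z, hz, rfl⟩ := Finset.mem_image.mp hy
          refine ⟨mul_mem (hx i him) (hH i him (hS z hz).1), ?_⟩
          have h := hB.mul _ _ _ _ (hl i him) (hS z hz).2
          have e : l + j * l = (j + 1) * l := by ring
          rwa [e] at h
  obtain ⟨S, hc, hS⟩ := key m le_rfl
  have hfin := hB.fin (m * l)
  rw [← hc]
  have hsub : (S : Set Γ) ⊆ B (m * l) := fun y hy => (hS y hy).2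
  have h2 := Set.ncard_le_ncard hsub hfin
  rw [Set.ncard_coe_finset] at h2
  rwa [Nat.card_coe_set_eq]

end Pool.Agent.Helper75.LS
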