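import Pool.Agent.Helper75.LS.L5
import Pool.Agent.Helper75.LS.L6

set_option autoImplicit false

namespace Pool.Agent.Helper75.LS

variable {Γ : Type} [Group Γ]

/-- The terms of the balanced commutator trees. -/
def l7c (Γ : Type) [Group Γ] (p : ℕ) : ℕ → ℕ → Subgroup Γ
  | 0, n => if n = 0 then ⊤ else Pw p ⊤
  | j + 1, n => ⁅l7c Γ p j (n - n / 2), l7c Γ p j (n / 2)⁆

theorem l7c_zero_zero (p : ℕ) : l7c Γ p 0 0 = ⊤ := by simp [l7c]

theorem l7c_zero_succ (p n : ℕ) : l7c Γ p 0 (n + 1) = Pw p ⊤ := by simp [l7c]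

theorem l7c_succ (p j n : ℕ) :
    l7c Γ p (j + 1) n = ⁅l7c Γ p j (n - n / 2), l7c Γ p j (n / 2)⁆ := by simp [l7c]

variable [Finite Γ] {p : ℕ} [Fact p.Prime]

theorem l7c_pe (hΓ : IsPGroup p Γ) (h : PE p (⊤ : Subgroup Γ)) (j : ℕ) :
    ∀ n, PE p (l7c Γ p j n) := by
  induction j with
  | zero =>
    intro n
    rcases n with _ | n
    · rw [l7c_zero_zero]; exact h
    · rw [l7c_zero_succ]; exact pe_pow hΓ h
  | succ j ih =>
    intro n
    rw [l7c_succ]
    exact pe_comm hΓ _ _ (ih _) (ih _)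

omit [Finite Γ] [Fact p.Prime] in
theorem l7_sh_mono {B : ℕ → Set Γ} (hB : Filt B) (A : Subgroup Γ) {l m : ℕ} (hlm : l ≤ m)
    (h : Sh B A l) : Sh B A m :=
  h.trans (Subgroup.closure_mono (Set.inter_subset_inter_right _ (hB.mono l m hlm)))

theorem l7c_sh (hΓ : IsPGroup p Γ) {B : ℕ → Set Γ} (hB : Filt B) (h : PE p (⊤ : Subgroup Γ))
    (l : ℕ) (h1 : Sh B (⊤ : Subgroup Γ) l) (j : ℕ) :
    ∀ n, Sh B (l7c Γ p j n) (4 ^ j * (p * l)) := by
  have hp : p.Prime := Fact.out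
  induction j with
  | zero =>
    intro n
    rw [pow_zero, one_mul]
    rcases n with _ | n
    · rw [l7c_zero_zero]
      exact l7_sh_mono hB _ (Nat.le_mul_of_pos_left l hp.pos) h1
    · rw [l7c_zero_succ]; exact sh_pow hΓ hB h l h1
  | succ j ih =>
    intro n
    have hpe := l7c_pe hΓ h (j + 1) n
    rw [l7c_succ] at hpe ⊢
    have h2 := sh_comm hΓ hB _ _ (l7c_pe hΓ h j (n - n / 2)).1 (l7c_pe hΓ h j (n / 2)).1 hpe
      (4 ^ j * (p * l)) (ih _) (ih _)
    have e : 4 * (4 ^ j * (p * l)) = 4 ^ (j + 1) * (p * l) := by ring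
    rwa [e] at h2

theorem l7c_step (hΓ : IsPGroup p Γ) (h : PE p (⊤ : Subgroup Γ)) (j : ℕ) :
    ∀ n, n < 2 ^ j → l7c Γ p j (n + 1) ≤ Pw p (l7c Γ p j n) := by
  induction j with
  | zero =>
    intro n hn
    have hn0 : n = 0 := by
      rw [pow_zero] at hn
      omega
    subst hn0
    rw [l7c_zero_succ, l7c_zero_zero]
  | succ j ih =>
    intro n hn
    rw [pow_succ] at hn
    rcases Nat.even_or_odd' n with ⟨m, hm | hm⟩
    · have hmj : m < 2 ^ j := by omega
      have e1 : n + 1 - (n + 1) / 2 = m + 1 := by omega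
      have e2 : (n + 1) / 2 = m := by omega
      have e3 : n - n / 2 = m := by omega
      have e4 : n / 2 = m := by omega
      have hpe := l7c_pe hΓ h (j + 1) n
      rw [l7c_succ, e3, e4] at hpe
      rw [l7c_succ, l7c_succ, e1, e2, e3, e4]
      exact (Subgroup.commutator_mono (ih m hmj) le_rfl).trans
        (comm_pow p _ _ (l7c_pe hΓ h j m).1 (l7c_pe hΓ h j m).1 hpe)
    · have hmj : m < 2 ^ j := by omega
      have e1 : n + 1 - (n + 1) / 2 = m + 1 := by omega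
      have e2 : (n + 1) / 2 = m + 1 := by omega
      have e3 : n - n / 2 = m + 1 := by omega
      have e4 : n / 2 = m := by omega
      have hpe := l7c_pe hΓ h (j + 1) n
      rw [l7c_succ, e3, e4, Subgroup.commutator_comm] at hpe
      rw [l7c_succ, l7c_succ, e1, e2, e3, e4,
        Subgroup.commutator_comm (l7c Γ p j (m + 1)) (l7c Γ p j m)]
      exact (Subgroup.commutator_mono (ih m hmj) le_rfl).trans
        (comm_pow p _ _ (l7c_pe hΓ h j m).1 (l7c_pe hΓ h j (m + 1)).1 hpe)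

omit [Finite Γ] [Fact p.Prime] in
theorem l7c_derived (h : PE p (⊤ : Subgroup Γ)) (j : ℕ) :
    derivedSeries Γ (j + 1) ≤ l7c Γ p j (2 ^ j) := by
  induction j with
  | zero =>
    have e : l7c Γ p 0 (2 ^ 0) = Pw p ⊤ := l7c_zero_succ p 0
    rw [e, derivedSeries_succ, derivedSeries_zero]
    exact h.2.trans (pw_qq_le p _)
  | succ j ih =>
    have e1 : 2 ^ (j + 1) - 2 ^ (j + 1) / 2 = 2 ^ j := by
      rw [pow_succ]
      omega
    have e2 : 2 ^ (j + 1) / 2 = 2 ^ j := by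
      rw [pow_succ]
      omega
    rw [l7c_succ, e1, e2, derivedSeries_succ]
    exact Subgroup.commutator_mono ih ih

/-- The balanced commutator tree: a powerful `p`-group generated by elements of length `l`, of
derived length more than `j + 1`, has `2 ^ (2 ^ j)` elements of length `8 ^ j p l`. -/
theorem tree (hΓ : IsPGroup p Γ) {B : ℕ → Set Γ} (hB : Filt B) (h : PE p (⊤ : Subgroup Γ))
    (l : ℕ) (h1 : Sh B (⊤ : Subgroup Γ) l) (j : ℕ) (hj : derivedSeries Γ (j + 1) ≠ ⊥) :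
    2 ^ 2 ^ j ≤ Nat.card (B (2 ^ j * (4 ^ j * (p * l)))) := by
  have hstep : ∀ i, i < 2 ^ j → l7c Γ p j (i + 1) ≤ l7c Γ p j i :=
    fun i hi => (l7c_step hΓ h j i hi).trans (pw_le p _)
  have hle : ∀ d, d ≤ 2 ^ j → l7c Γ p j (2 ^ j) ≤ l7c Γ p j (2 ^ j - d) := by
    intro d
    induction d with
    | zero => intro _; exact le_rfl
    | succ d ih =>
      intro hd
      have e : 2 ^ j - d = 2 ^ j - (d + 1) + 1 := by omega
      have h2 := ih (by omega)
      rw [e] at h2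
      exact h2.trans (hstep _ (by omega))
  have hne : ∀ i, i < 2 ^ j → l7c Γ p j i ≠ ⊥ := by
    intro i hi h0
    apply hj
    have e : 2 ^ j - (2 ^ j - i) = i := by omega
    have h2 := hle (2 ^ j - i) (by omega)
    rw [e, h0] at h2
    exact le_bot_iff.1 ((l7c_derived h j).trans h2)
  have hex : ∀ i, ∃ y : Γ, i < 2 ^ j →
      y ∈ l7c Γ p j i ∧ y ∉ l7c Γ p j (i + 1) ∧ y ∈ B (4 ^ j * (p * l)) := by
    intro i
    by_cases hi : i < 2 ^ j
    · have hlt : l7c Γ p j (i + 1) < l7c Γ p j i :=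
        lt_of_le_of_lt ((l7c_step hΓ h j i hi).trans le_sup_left) (ph_lt hΓ _ (hne i hi))
      have hnot : ¬ (((l7c Γ p j i : Subgroup Γ) : Set Γ) ∩ B (4 ^ j * (p * l)) ⊆
          ((l7c Γ p j (i + 1) : Subgroup Γ) : Set Γ)) := by
        intro hsub
        have h3 : l7c Γ p j i ≤ l7c Γ p j (i + 1) :=
          (l7c_sh hΓ hB h l h1 j i).trans ((Subgroup.closure_le _).2 hsub)
        exact absurd h3 (not_le_of_gt hlt)
      obtain ⟨y, hy, hy'⟩ := Set.not_subset.1 hnot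
      exact ⟨y, fun _ => ⟨hy.1, hy', hy.2⟩⟩
    · exact ⟨1, fun h' => absurd h' hi⟩
  choose x hx using hex
  exact count_chain hB (l7c Γ p j) x (4 ^ j * (p * l)) (2 ^ j) hstep
    (fun i hi => (hx i hi).1) (fun i hi => (hx i hi).2.1) (fun i hi => (hx i hi).2.2)

end Pool.Agent.Helper75.LS
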