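import Pool.Agent.Helper75.LS.L1

set_option autoImplicit false

namespace Pool.Agent.Helper75.LS

variable {Γ : Type} [Group Γ] [Finite Γ] {p : ℕ} [Fact p.Prime]

omit [Finite Γ] [Fact p.Prime] in
theorem l8_ph_mono {A B : Subgroup Γ} (h : A ≤ B) : Ph p A ≤ Ph p B := by
  refine sup_le_sup (Subgroup.closure_mono ?_) (Subgroup.commutator_mono h h)
  rintro x ⟨a, ha, rfl⟩
  exact ⟨a, h ha, rfl⟩

omit [Finite Γ] in
/-- Three subgroups lemma modulo a normal subgroup. -/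
theorem l8_three (M A B C : Subgroup Γ) (hM : M.Normal) (h1 : ⁅⁅B, C⁆, A⁆ ≤ M)
    (h2 : ⁅⁅C, A⁆, B⁆ ≤ M) : ⁅⁅A, B⁆, C⁆ ≤ M := by
  have key : ∀ X : Subgroup Γ, X ≤ M ↔ X.map (QuotientGroup.mk' M) = ⊥ := by
    intro X
    rw [Subgroup.map_eq_bot_iff, QuotientGroup.ker_mk']
  rw [key, Subgroup.map_commutator, Subgroup.map_commutator] at h1 h2 ⊢
  exact Subgroup.commutator_commutator_eq_bot_of_rotate h1 h2

/-- The `k`-th derived subgroup centralises the abelian sections of order at most `p ^ (2 ^ k)`. -/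
theorem good_derived (hΓ : IsPGroup p Γ) (k : ℕ) : Good p (derivedSeries Γ k) (2 ^ k) := by
  have hp : p.Prime := Fact.out
  induction k with
  | zero =>
    intro M N hM hN h _ hi
    rw [pow_zero, pow_one] at hi
    rw [derivedSeries_zero]
    exact comm_le_of_relIndex_eq hΓ M N hM hN h hi
  | succ k ih =>
    intro M N hM hN h hP hi
    obtain ⟨K, hK, h1, h2, h3, h4⟩ : ∃ K : Subgroup Γ, K.Normal ∧ M ≤ K ∧ K ≤ N ∧
        K.relIndex N ≤ p ^ 2 ^ k ∧ M.relIndex K ≤ p ^ 2 ^ k := by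
      by_cases hle : p ^ 2 ^ k ≤ M.relIndex N
      · obtain ⟨K, hK, h1, h2, h3⟩ := exists_between hΓ M N hM hN h (2 ^ k) hle
        refine ⟨K, hK, h1, h2, h3.le, ?_⟩
        have h5 := Subgroup.relIndex_mul_relIndex M K N h1 h2
        rw [← h5, h3, pow_succ, mul_two, pow_add] at hi
        exact Nat.le_of_mul_le_mul_right hi (pow_pos hp.pos _)
      · refine ⟨M, hM, le_rfl, h, (not_le.1 hle).le, ?_⟩
        rw [Subgroup.relIndex_self]
        exact Nat.one_le_pow _ _ hp.pos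
    have h5 : ⁅N, derivedSeries Γ k⁆ ≤ K := ih K N hK hN h2 (hP.trans h1) h3
    have h6 : ⁅K, derivedSeries Γ k⁆ ≤ M := ih M K hM hK h1 ((l8_ph_mono h2).trans hP) h4
    have h7 : ⁅⁅N, derivedSeries Γ k⁆, derivedSeries Γ k⁆ ≤ M :=
      (Subgroup.commutator_mono h5 le_rfl).trans h6
    rw [derivedSeries_succ, Subgroup.commutator_comm]
    refine l8_three M _ _ _ hM ?_ h7
    rw [Subgroup.commutator_comm (derivedSeries Γ k) N]
    exact h7

end Pool.Agent.Helper75.LS
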